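import Pool.Agent.Run7.h678.TB.Std
import Pool.Agent.Run7.h678.KM.Sharp

set_option autoImplicit false

namespace Run7.h678.TB

open Finset Run7.h678.Sat

/-- an arc of sign `s` from colour `a` to colour `b` -/
def arcc (s : Bool) (a b : Fin 3) : Bool := b == a + sg s

/-- three vertices of colours `a, b, c` with signs `u, v, w` of the pairs 12, 13, 23: some vertex is
isolated or sends arcs to both others -/
def fdc (u v w : Bool) (a b c : Fin 3) : Bool :=
  (arcc u a b && arcc v a c) || (arcc u b a && arcc w b c) || (arcc v c a && arcc w c b) ||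
  (!arcc u a b && !arcc u b a && !arcc v a c && !arcc v c a) ||
  (!arcc u b a && !arcc u a b && !arcc w b c && !arcc w c b) ||
  (!arcc v c a && !arcc v a c && !arcc w c b && !arcc w b c)

theorem fdc_swap : ∀ (u v w : Bool) (a b c : Fin 3), fdc u v w a b c = fdc u w v b a c := by
  decide +kernel

theorem fdc_swap' : ∀ (u v w : Bool) (a b c : Fin 3), fdc u v w a b c = fdc v u w a c b := by
  decide +kernel

theorem L3 : ∀ (u v w : Bool) (a b c : Fin 3),
    fdc v w w a b c = P3 u u v (a - sg u) (b - sg v) (c - sg w) := by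
  decide +kernel

theorem L2a : ∀ (u v : Bool) (a b c : Fin 3), a ≠ b → (fdc u v v a b c = true ↔
    (c - sg v) + sg u ≠ a - sg u ∧ (c - sg v) + sg u ≠ b - sg u) := by
  decide +kernel

theorem L2b : ∀ (u v : Bool) (a b c : Fin 3), b ≠ c → (fdc v v v a b c = true ↔
    (a - sg u) + sg u ≠ b - sg v ∧ (a - sg u) + sg u ≠ c - sg v) := by
  decide +kernel

theorem L1 : ∀ (u : Bool) (a b c : Fin 3), a ≠ b → a ≠ c → b ≠ c → fdc u u u a b c = false := by
  decide +kernel

theorem covc : ∀ (s12 s13 s14 s23 s24 s34 : Bool) (a b c d : Fin 3),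
    (fdc s12 s13 s23 a b c || fdc s12 s14 s24 a b d || fdc s13 s14 s34 a c d ||
    fdc s23 s24 s34 b c d || (s12 == s34 && s23 == s14 && s12 != s23) ||
    (s12 == s34 && s24 == s13 && s12 != s24) || (s13 == s24 && s23 == s14 && s13 != s23))
      = true := by
  decide +kernel

theorem apexc : ∀ (u s : Bool) (c : Fin 3), ∃ t : Fin 3, ∀ a b : Fin 3, a ≠ b →
    (fdc u s s a b c = true ↔ t ≠ a ∧ t ≠ b) := by
  decide +kernel

theorem count3 : ∀ u v w : Bool, ∑ a : Fin 3, ∑ b : Fin 3, ∑ c : Fin 3,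
    (fdc u v w a b c).toNat = 12 := by
  decide +kernel

theorem count2 : ∀ u s : Bool, ∑ a : Fin 3, ∑ b : Fin 3, ∑ c : Fin 3,
    (decide (a ≠ b) && fdc u s s a b c).toNat = 6 := by
  decide +kernel

/-- the arcs of the layered digraph with signs `σ` -/
def Arrow {r : ℕ} (σ : Fin r → Bool) (x y : Fin 3 × Fin r) : Prop :=
  y.1 = x.1 + (if σ (max x.2 y.2) then 1 else 2)

open Classical in
/-- the configuration of Kostochka with signs `σ`: the triples in which some vertex sends arcs to
both other vertices, or is joined to neither of them -/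
noncomputable def TBK {r : ℕ} (σ : Fin r → Bool) : Finset (Finset (Fin 3 × Fin r)) :=
  (univ.powersetCard 3).filter (fun t => ∃ u ∈ t,
    (∀ v ∈ t, v ≠ u → Arrow σ u v) ∨ (∀ v ∈ t, v ≠ u → ¬ Arrow σ u v ∧ ¬ Arrow σ v u))

/-- the pattern of three vertices -/
def fd {r : ℕ} (σ : Fin r → Bool) (x y z : Fin 3 × Fin r) : Bool :=
  fdc (σ (max x.2 y.2)) (σ (max x.2 z.2)) (σ (max y.2 z.2)) x.1 y.1 z.1

theorem fd_swap {r : ℕ} (σ : Fin r → Bool) (x y z : Fin 3 × Fin r) :
    fd σ x y z = fd σ y x z := by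
  unfold fd; rw [fdc_swap, max_comm]

theorem fd_swap' {r : ℕ} (σ : Fin r → Bool) (x y z : Fin 3 × Fin r) :
    fd σ x y z = fd σ x z y := by
  unfold fd; rw [fdc_swap', max_comm y.2]

theorem arrow_iff {r : ℕ} (σ : Fin r → Bool) (x y : Fin 3 × Fin r) :
    Arrow σ x y ↔ arcc (σ (max x.2 y.2)) x.1 y.1 = true := by
  unfold Arrow arcc sg
  rw [beq_iff_eq]

theorem tri_bool : ∀ p p' q q' s s' : Bool,
    (((p = true ∧ q = true) ∨ ((¬ p = true ∧ ¬ p' = true) ∧ (¬ q = true ∧ ¬ q' = true))) ∨
      ((p' = true ∧ s = true) ∨ ((¬ p' = true ∧ ¬ p = true) ∧ (¬ s = true ∧ ¬ s' = true))) ∨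
      ((q' = true ∧ s' = true) ∨ ((¬ q' = true ∧ ¬ q = true) ∧ (¬ s' = true ∧ ¬ s = true)))) ↔
    ((p && q) || (p' && s) || (q' && s') || (!p && !p' && !q && !q') ||
      (!p' && !p && !s && !s') || (!q' && !q && !s' && !s)) = true := by
  intro p p' q q' s s'
  cases p <;> cases p' <;> cases q <;> cases q' <;> cases s <;> cases s' <;> decide

theorem mem_TBK {r : ℕ} {σ : Fin r → Bool} {x y z : Fin 3 × Fin r} (hxy : x ≠ y) (hxz : x ≠ z)
    (hyz : y ≠ z) : ({x, y, z} : Finset (Fin 3 × Fin r)) ∈ TBK σ ↔ fd σ x y z = true := by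
  have h3 : ({x, y, z} : Finset (Fin 3 × Fin r)).card = 3 := KM.card3 hxy hxz hyz
  have e1 := arrow_iff σ x y
  have e2 : Arrow σ y x ↔ arcc (σ (max x.2 y.2)) y.1 x.1 = true := by
    rw [arrow_iff, max_comm]
  have e3 := arrow_iff σ x z
  have e4 : Arrow σ z x ↔ arcc (σ (max x.2 z.2)) z.1 x.1 = true := by
    rw [arrow_iff, max_comm]
  have e5 := arrow_iff σ y z
  have e6 : Arrow σ z y ↔ arcc (σ (max y.2 z.2)) z.1 y.1 = true := by
    rw [arrow_iff, max_comm]
  have hm : ({x, y, z} : Finset (Fin 3 × Fin r)) ∈ TBK σ ↔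
      ((Arrow σ x y ∧ Arrow σ x z) ∨ ((¬ Arrow σ x y ∧ ¬ Arrow σ y x) ∧
        (¬ Arrow σ x z ∧ ¬ Arrow σ z x))) ∨
      ((Arrow σ y x ∧ Arrow σ y z) ∨ ((¬ Arrow σ y x ∧ ¬ Arrow σ x y) ∧
        (¬ Arrow σ y z ∧ ¬ Arrow σ z y))) ∨
      ((Arrow σ z x ∧ Arrow σ z y) ∨ ((¬ Arrow σ z x ∧ ¬ Arrow σ x z) ∧
        (¬ Arrow σ z y ∧ ¬ Arrow σ y z))) := by
    simp only [TBK, mem_filter, mem_powersetCard, subset_univ, true_and, h3, mem_insert,
      mem_singleton, exists_eq_or_imp, exists_eq_left, forall_eq_or_imp, forall_eq, ne_eq,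
      not_true_eq_false, false_imp_iff, hxy, hxz, hyz, Ne.symm hxy, Ne.symm hxz, Ne.symm hyz,
      not_false_eq_true, true_imp_iff, and_true]
  rw [hm, e1, e2, e3, e4, e5, e6]
  unfold fd fdc
  exact tri_bool _ _ _ _ _ _

/-- the blocks -/
def fib {r : ℕ} (j : Fin r) : Finset (Fin 3 × Fin r) := univ.image (fun a => (a, j))

theorem fib_inj {r : ℕ} (j : Fin r) : Function.Injective (fun a : Fin 3 => (a, j)) := by
  intro a b h
  exact congrArg Prod.fst h

theorem mem_fib {r : ℕ} {j : Fin r} {x : Fin 3 × Fin r} : x ∈ fib j ↔ x.2 = j := by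
  simp only [fib, mem_image, mem_univ, true_and]
  constructor
  · rintro ⟨a, rfl⟩; rfl
  · intro h; exact ⟨x.1, Prod.ext rfl h.symm⟩

theorem fib_card {r : ℕ} (j : Fin r) : (fib j).card = 3 := by
  rw [fib, card_image_of_injective _ (fib_inj j)]; rfl

theorem fib_disj {r : ℕ} (i j : Fin r) (h : i ≠ j) : Disjoint (fib i) (fib j) := by
  rw [disjoint_left]
  intro x hx hx'
  rw [mem_fib] at hx hx'
  exact h (hx.symm.trans hx')

theorem no_alt_max {r : ℕ} (σ : Fin r → Bool) (i j k l : Fin r)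
    (h1 : σ (max i j) = σ (max k l)) (h2 : σ (max j k) = σ (max i l)) :
    σ (max i j) = σ (max j k) := by
  rcases le_total i j with a | a <;> rcases le_total k l with b | b <;>
    rcases le_total j k with c | c <;> rcases le_total i l with d | d <;>
    simp only [max_eq_left, max_eq_right, a, b, c, d] at h1 h2 ⊢ <;> first
    | rfl
    | exact h1
    | exact h2
    | exact h1.symm
    | exact h2.symm
    | exact h1.trans h2.symm
    | exact (h1.trans h2.symm)
    | (have e := le_antisymm a (d.trans (b.trans c)); simp_all)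
    | (have e := le_antisymm (b.trans (d.trans a)) c; simp_all)

theorem TBK_cov {r : ℕ} (σ : Fin r → Bool) : Cov (TBK σ) := by
  refine ⟨fun t ht => ?_, fun S hS => ?_⟩
  · simp only [TBK, mem_filter, mem_powersetCard] at ht
    exact ht.1.2
  · obtain ⟨x, y, z, u, hxy, hxz, hxu, hyz, hyu, hzu, rfl⟩ := card_eq_four.mp hS
    have hsub : ∀ {p q s : Fin 3 × Fin r}, p ∈ ({x, y, z, u} : Finset (Fin 3 × Fin r)) →
        q ∈ ({x, y, z, u} : Finset (Fin 3 × Fin r)) → s ∈ ({x, y, z, u} : Finset (Fin 3 × Fin r)) →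
        ({p, q, s} : Finset (Fin 3 × Fin r)) ⊆ {x, y, z, u} := by
      intro p q s hp hq hs t ht
      rw [mem_insert, mem_insert, mem_singleton] at ht
      rcases ht with rfl | rfl | rfl <;> assumption
    have hc := covc (σ (max x.2 y.2)) (σ (max x.2 z.2)) (σ (max x.2 u.2)) (σ (max y.2 z.2))
      (σ (max y.2 u.2)) (σ (max z.2 u.2)) x.1 y.1 z.1 u.1
    simp only [Bool.or_eq_true, Bool.and_eq_true, beq_iff_eq, bne_iff_ne, and_assoc] at hc
    rcases hc with (((((h | h) | h) | h) | h) | h) | h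
    · exact ⟨_, (mem_TBK hxy hxz hyz).mpr h, hsub (by simp) (by simp) (by simp)⟩
    · exact ⟨_, (mem_TBK hxy hxu hyu).mpr h, hsub (by simp) (by simp) (by simp)⟩
    · exact ⟨_, (mem_TBK hxz hxu hzu).mpr h, hsub (by simp) (by simp) (by simp)⟩
    · exact ⟨_, (mem_TBK hyz hyu hzu).mpr h, hsub (by simp) (by simp) (by simp)⟩
    · exact absurd (no_alt_max σ x.2 y.2 z.2 u.2 h.1 h.2.1) h.2.2
    · refine absurd (no_alt_max σ x.2 y.2 u.2 z.2 ?_ h.2.1) h.2.2
      rw [max_comm u.2]; exact h.1
    · refine absurd (no_alt_max σ x.2 z.2 y.2 u.2 h.1 ?_) ?_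
      · rw [max_comm z.2]; exact h.2.1
      · rw [max_comm z.2]; exact h.2.2

/-- the converse of `apex` -/
theorem good_of_apex {V : Type*} [DecidableEq V] {T : Finset (Finset V)}
    (h3 : ∀ t ∈ T, t.card = 3) {b : Fin 3 → V} (hb : Function.Injective b) {x : V}
    (hx : ∀ i, b i ≠ x) (hBT : univ.image b ∉ T) {t : Fin 3}
    (ht : ∀ i j, i ≠ j → (({b i, b j, x} : Finset V) ∈ T ↔ t ≠ i ∧ t ≠ j)) :
    Good T (univ.image b) x := by
  refine ⟨hBT, ?_⟩
  have hBcard : (univ.image b).card = 3 := by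
    rw [card_image_of_injective _ hb]; rfl
  have key : ∀ t : Fin 3, ∃ i j : Fin 3, i ≠ j ∧ t ≠ i ∧ t ≠ j ∧
      ∀ i' j' : Fin 3, i' ≠ j' → t ≠ i' → t ≠ j' → (i' = i ∧ j' = j) ∨ (i' = j ∧ j' = i) := by
    decide
  obtain ⟨i, j, hij, hti, htj, huniq⟩ := key t
  rw [card_eq_one]
  refine ⟨{b i, b j, x}, ?_⟩
  ext s
  simp only [mem_filter, mem_singleton]
  constructor
  · rintro ⟨hs, hsub⟩
    have hxs : x ∈ s := by
      by_contra hn
      have h1 : s ⊆ univ.image b := (subset_insert_iff_of_notMem hn).mp hsub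
      have h2 : s = univ.image b := eq_of_subset_of_card_le h1 (by rw [hBcard, h3 s hs])
      exact hBT (h2 ▸ hs)
    have h2 : (s.erase x).card = 2 := by rw [card_erase_of_mem hxs, h3 s hs]
    obtain ⟨p, q, hpq, he⟩ := card_eq_two.mp h2
    have hp : p ∈ s.erase x := by rw [he]; simp
    have hq : q ∈ s.erase x := by rw [he]; simp
    rw [mem_erase] at hp hq
    have hpb := hsub hp.2
    have hqb := hsub hq.2
    rw [mem_insert, mem_image] at hpb hqb
    obtain ⟨i', -, rfl⟩ := hpb.resolve_left hp.1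
    obtain ⟨j', -, rfl⟩ := hqb.resolve_left hq.1
    have hse : s = {b i', b j', x} := by
      rw [← insert_erase hxs, he]
      ext w; simp only [mem_insert, mem_singleton]; tauto
    have hne : i' ≠ j' := fun e => hpq (by rw [e])
    rw [hse] at hs ⊢
    obtain ⟨h5, h6⟩ := (ht i' j' hne).mp hs
    rcases huniq i' j' hne h5 h6 with ⟨rfl, rfl⟩ | ⟨rfl, rfl⟩
    · rfl
    · rw [Finset.insert_comm]
  · rintro rfl
    refine ⟨(ht i j hij).mpr ⟨hti, htj⟩, ?_⟩
    intro w hw
    simp only [mem_insert, mem_singleton] at hw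
    rcases hw with rfl | rfl | rfl
    · exact mem_insert_of_mem (mem_image_of_mem _ (mem_univ _))
    · exact mem_insert_of_mem (mem_image_of_mem _ (mem_univ _))
    · exact mem_insert_self _ _

theorem fib_notMem {r : ℕ} (σ : Fin r → Bool) (j : Fin r) : fib j ∉ TBK σ := by
  have he : fib j = {((0 : Fin 3), j), ((1 : Fin 3), j), ((2 : Fin 3), j)} := by
    ext ⟨a, i⟩
    rw [mem_fib]
    simp only [mem_insert, mem_singleton, Prod.mk.injEq]
    have : a = 0 ∨ a = 1 ∨ a = 2 := by revert a; decide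
    tauto
  rw [he, mem_TBK (by simp) (by simp) (by simp)]
  have h1 := L1 (σ (max j j)) 0 1 2 (by decide) (by decide) (by decide)
  intro h
  exact absurd (h.symm.trans h1) (by decide)

theorem TBK_good {r : ℕ} (σ : Fin r → Bool) (j : Fin r) (x : Fin 3 × Fin r) (hx : x ∉ fib j) :
    Good (TBK σ) (fib j) x := by
  have hxj : x.2 ≠ j := fun h => hx (mem_fib.mpr h)
  have hne : ∀ i : Fin 3, (i, j) ≠ x := fun i h => hxj (by rw [← h])
  obtain ⟨t, ht⟩ := apexc (σ j) (σ (max j x.2)) x.1
  refine good_of_apex (b := fun a => (a, j)) (TBK_cov σ).1 (fib_inj j) hne (fib_notMem σ j)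
    (t := t) ?_
  intro a b hab
  rw [mem_TBK (fun h => hab (congrArg Prod.fst h)) (hne a) (hne b)]
  unfold fd
  simp only [max_self]
  exact ht a b hab

theorem TBK_card {r : ℕ} (σ : Fin r → Bool) :
    6 * ((TBK σ).card : ℤ) ≤ 12 * r ^ 3 - 18 * r ^ 2 + 6 * r := by
  have h6 := KM.six_le (TBK_cov σ).1
  have hU : (univ : Finset (Fin 3 × Fin r)) = univ.biUnion (fib (r := r)) := by
    ext x
    simp only [mem_univ, mem_biUnion, true_and, true_iff]
    exact ⟨x.2, mem_fib.mpr rfl⟩
  have hle : ∑ x : Fin 3 × Fin r, ∑ y : Fin 3 × Fin r, ∑ z : Fin 3 × Fin r,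
      (if x ≠ y ∧ x ≠ z ∧ y ≠ z ∧ ({x, y, z} : Finset (Fin 3 × Fin r)) ∈ TBK σ
        then (1 : ℤ) else 0) ≤ (bx (TBK σ) univ univ univ : ℕ) := by
    unfold bx g
    push_cast
    refine sum_le_sum fun x _ => sum_le_sum fun y _ => sum_le_sum fun z _ => ?_
    by_cases h : ({x, y, z} : Finset (Fin 3 × Fin r)) ∈ TBK σ
    · rw [if_pos h]; split_ifs <;> norm_num
    · rw [if_neg h, if_neg (by tauto)]
  have hbx : bx (TBK σ) univ univ univ = ∑ i : Fin r, ∑ j : Fin r, ∑ k : Fin r,
      bx (TBK σ) (fib i) (fib j) (fib k) := by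
    conv_lhs => rw [hU]
    rw [bx_first (TBK σ) fib_disj]
    refine sum_congr rfl fun i _ => ?_
    rw [bx_second (TBK σ) fib_disj]
    refine sum_congr rfl fun j _ => ?_
    rw [bx_third (TBK σ) fib_disj]
  have hone : ∀ i j k : Fin r, bx (TBK σ) (fib i) (fib j) (fib k) =
      ∑ a : Fin 3, ∑ b : Fin 3, ∑ c : Fin 3,
        (decide (({(a, i), (b, j), (c, k)} : Finset (Fin 3 × Fin r)) ∈ TBK σ)).toNat :=
    fun i j k => bx_enum (fib_inj i) (fib_inj j) (fib_inj k)
  have hnot : ∀ x y z : Fin 3 × Fin r, x = y ∨ x = z ∨ y = z →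
      ({x, y, z} : Finset (Fin 3 × Fin r)) ∉ TBK σ := by
    intro x y z h hm
    have h3 := (TBK_cov σ).1 _ hm
    have h2 : ({x, y, z} : Finset (Fin 3 × Fin r)).card ≤ 2 := by
      rcases h with rfl | rfl | rfl
      · rw [insert_eq_of_mem (by simp)]; exact card_le_two
      · rw [pair_comm, insert_eq_of_mem (by simp)]; exact card_le_two
      · rw [pair_eq_singleton]; exact card_le_two
    omega
  have hval : ∀ i j k : Fin r, (bx (TBK σ) (fib i) (fib j) (fib k) : ℤ) ≤
      (12 : ℤ) - 6 * ((if i = j then 1 else 0) + (if j = k then 1 else 0) +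
        (if i = k then 1 else 0)) + 6 * ((if i = j then 1 else 0) * (if j = k then 1 else 0)) -
        12 * (0 + 0 + 0 + 0 + 0 + 0) := by
    have h2 : ∀ i k : Fin r, i ≠ k → bx (TBK σ) (fib i) (fib i) (fib k) = 6 := by
      intro i k hik
      rw [hone, ← count2 (σ i) (σ (max i k))]
      refine sum_congr rfl fun a _ => sum_congr rfl fun b _ => sum_congr rfl fun c _ => ?_
      congr 1
      by_cases hab : a = b
      · subst hab
        have := hnot (a, i) (a, i) (c, k) (Or.inl rfl)
        rw [decide_eq_false this]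
        simp
      · have hm := mem_TBK (σ := σ) (x := (a, i)) (y := (b, i)) (z := (c, k))
          (fun h => hab (congrArg Prod.fst h)) (fun h => hik (congrArg Prod.snd h))
          (fun h => hik (congrArg Prod.snd h))
        unfold fd at hm
        simp only [max_self] at hm
        rw [Bool.eq_iff_iff, decide_eq_true_eq, hm]
        simp [hab]
    intro i j k
    by_cases hij : i = j
    · subst hij
      by_cases hik : i = k
      · subst hik
        have h0 : bx (TBK σ) (fib i) (fib i) (fib i) = 0 := by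
          rw [hone]
          refine sum_eq_zero fun a _ => sum_eq_zero fun b _ => sum_eq_zero fun c _ => ?_
          have : ({(a, i), (b, i), (c, i)} : Finset (Fin 3 × Fin r)) ∉ TBK σ := by
            by_cases hab : a = b
            · exact hnot _ _ _ (Or.inl (by rw [hab]))
            · by_cases hac : a = c
              · exact hnot _ _ _ (Or.inr (Or.inl (by rw [hac])))
              · by_cases hbc : b = c
                · exact hnot _ _ _ (Or.inr (Or.inr (by rw [hbc])))
                · rw [mem_TBK (fun h => hab (congrArg Prod.fst h))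
                    (fun h => hac (congrArg Prod.fst h)) (fun h => hbc (congrArg Prod.fst h))]
                  unfold fd
                  simp only [max_self]
                  rw [L1 _ _ _ _ hab hac hbc]
                  simp
          simp [this]
        rw [h0]; simp
      · rw [h2 i k hik]; simp [hik]
    · by_cases hjk : j = k
      · subst hjk
        rw [bx_swap', bx_swap', bx_swap, bx_swap', h2 j i (Ne.symm hij)]
        simp [hij]
      · by_cases hik : i = k
        · subst hik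
          rw [bx_swap', h2 i j hij]; simp [hij, hjk]
        · have : bx (TBK σ) (fib i) (fib j) (fib k) = 12 := by
            rw [hone, ← count3 (σ (max i j)) (σ (max i k)) (σ (max j k))]
            refine sum_congr rfl fun a _ => sum_congr rfl fun b _ => sum_congr rfl fun c _ => ?_
            congr 1
            have hm := mem_TBK (σ := σ) (x := (a, i)) (y := (b, j)) (z := (c, k))
              (fun h => hij (congrArg Prod.snd h)) (fun h => hik (congrArg Prod.snd h))
              (fun h => hjk (congrArg Prod.snd h))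
            rw [Bool.eq_iff_iff, decide_eq_true_eq, hm]
            rfl
          rw [this]; simp [hij, hjk, hik]
  have htot : ((bx (TBK σ) univ univ univ : ℕ) : ℤ) ≤ 12 * r ^ 3 - 18 * r ^ 2 + 6 * r := by
    have ht := total_three r (fun _ _ => (0 : ℤ))
    simp only [sum_const_zero, mul_zero, sub_zero] at ht
    rw [← ht, hbx]
    push_cast
    refine sum_le_sum fun i _ => sum_le_sum fun j _ => sum_le_sum fun k _ => ?_
    have := hval i j k
    simpa using this
  linarith

end Run7.h678.TB
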