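import Pool.Agent.Run7.h678.Sat.Core

set_option autoImplicit false

namespace Run7.h678.TB

open Run7.h678.Sat

/-- a sign as an element of `Fin 3` -/
def sg (w : Bool) : Fin 3 := if w then 1 else 2

/-- the pattern on three different blocks, `u, v, w` are the signs of the pairs 12, 13, 23 -/
def P3 (u v w : Bool) (a b c : Fin 3) : Bool :=
  if a = b then (if b = c then (u == v && v == w) else (c == a - sg u || (v != u && w != u)))
  else if a = c then (b == a - sg v || (u != v && w != v))
  else if b = c then (a == b - sg w || (u != w && v != w))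
  else false

/-- masks of the minimal slices for a positive sign -/
def mask (p q : Fin 3) (e : Bool) : ℕ :=
  match p, q, e with
  | 0, 0, false => 417
  | 0, 0, true => 78
  | 0, 1, false => 149
  | 0, 1, true => 165
  | 0, 2, false => 291
  | 0, 2, true => 298
  | 1, 0, false => 113
  | 1, 0, true => 225
  | 1, 1, false => 85
  | 1, 1, true => 170
  | 1, 2, false => 92
  | 1, 2, true => 284
  | 2, 0, false => 393
  | 2, 0, true => 394
  | 2, 1, false => 86
  | 2, 1, true => 338
  | 2, 2, false => 282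
  | 2, 2, true => 228

/-- the two minimal slices -/
def cand (w : Bool) (p q : Fin 3) (e : Bool) (a b : Fin 3) : Bool :=
  if w then Nat.testBit (mask p q e) (3 * a.val + b.val)
  else Nat.testBit (mask (-p) (-q) e) (3 * (-a).val + (-b).val)

theorem relabel : ∀ c d : Fin 3 → Fin 3,
    (Function.Injective c ∧ Function.Injective d ∧ ∀ x, d (c x) ≠ x) →
    ∃ w : Bool, ∃ q : Fin 3 → Fin 3, Function.Injective q ∧ (∀ x, c (q x) = x + sg w) ∧
      (∀ a, d a = q (a + sg w)) := by
  decide +kernel

/-- the constraints of a slice -/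
def SliceC (w : Bool) (p q : Fin 3) (t : Fin 3 → Fin 3 → Bool) : Prop :=
  (∀ i j x : Fin 3, Both (fun x => x + sg w) p i j x → t i x = true ∨ t j x = true) ∧
  (∀ x y i : Fin 3, Both (fun x => x + sg w) q x y i → t i x = true ∨ t i y = true)

instance (w : Bool) (p q : Fin 3) (t : Fin 3 → Fin 3 → Bool) : Decidable (SliceC w p q t) := by
  unfold SliceC; infer_instance

/-- the slice is one of the two candidates -/
def SliceR (w : Bool) (p q : Fin 3) (t : Fin 3 → Fin 3 → Bool) : Prop :=
  ∃ e : Bool, ∀ a b : Fin 3, t a b = cand w p q e a b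

instance (w : Bool) (p q : Fin 3) (t : Fin 3 → Fin 3 → Bool) : Decidable (SliceR w p q t) := by
  unfold SliceR; infer_instance

theorem slice_tab : ∀ (w : Bool) (p q : Fin 3) (b0 b1 b2 b3 b4 b5 b6 b7 b8 : Bool),
    SliceC w p q (Tab b0 b1 b2 b3 b4 b5 b6 b7 b8) →
    b0.toNat + b1.toNat + b2.toNat + b3.toNat + b4.toNat + b5.toNat + b6.toNat + b7.toNat
        + b8.toNat ≤ 4 →
    SliceR w p q (Tab b0 b1 b2 b3 b4 b5 b6 b7 b8) := by
  decide +kernel

/-- a choice of candidates -/
def cc (u v : Bool) (c : Fin 3 → Fin 3) (e0 e1 e2 : Bool) (a b z : Fin 3) : Bool :=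
  cand u (z + sg v) (c z) (if z = 0 then e0 else if z = 1 then e1 else e2) a b

/-- the remaining constraints -/
def TripC (v : Bool) (d : Fin 3 → Fin 3) (t : Fin 3 → Fin 3 → Fin 3 → Bool) : Prop :=
  ∀ z z' a b : Fin 3, z ≠ z' → (a + sg v = z ∨ a + sg v = z') → (d b = z ∨ d b = z') →
    t a b z = true ∨ t a b z' = true

instance (v : Bool) (d : Fin 3 → Fin 3) (t : Fin 3 → Fin 3 → Fin 3 → Bool) :
    Decidable (TripC v d t) := by
  unfold TripC; infer_instance

/-- the conclusion -/
def TripR (u v : Bool) (c d : Fin 3 → Fin 3) (t : Fin 3 → Fin 3 → Fin 3 → Bool) : Prop :=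
  ∃ w : Bool, (∀ x, c x = x + sg w) ∧ (∀ x, d x = x + sg w) ∧
    ∀ a b z : Fin 3, t a b z = P3 u v w a b z

instance (u v : Bool) (c d : Fin 3 → Fin 3) (t : Fin 3 → Fin 3 → Fin 3 → Bool) :
    Decidable (TripR u v c d t) := by
  unfold TripR; infer_instance

theorem triple_tab : ∀ (u v : Bool) (c d : Fin 3 → Fin 3),
    (Function.Injective c ∧ Function.Injective d ∧ ∀ x, d (c x) ≠ x) → ∀ e0 e1 e2 : Bool,
    TripC v d (cc u v c e0 e1 e2) → TripR u v c d (cc u v c e0 e1 e2) := by
  decide +kernel

theorem four_alt : ∀ w13 w24 : Bool, ∃ a b c d : Fin 3, P3 true w13 false a b c = false ∧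
    P3 true false w24 a b d = false ∧ P3 w13 false true a c d = false ∧
    P3 false w24 true b c d = false := by
  decide +kernel

end Run7.h678.TB
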