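import Pool.Agent.Run7.h678.TB.Stab

set_option autoImplicit false

namespace Run7.h678.TB

open Finset Run7.h678.Sat

section main
variable {V : Type*} [DecidableEq V] {r : ℕ} {T : Finset (Finset V)} {B : Fin r → Finset V}

/-- few alternating four-cycles -/
theorem alt4_le (hT : Cov T) (hdis : ∀ i j, i ≠ j → Disjoint (B i) (B j)) {i0 : Fin r}
    {lam : Fin r → Fin 3 → V} {w : Fin r → Fin r → Bool}
    (himg : ∀ i, B i = univ.image (lam i)) (hs : ∀ i j, w i j = w j i)
    (hP : ∀ j k l, Nice T B i0 j k l → ∀ a b c, (({lam j a, lam k b, lam l c} : Finset V) ∈ T ↔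
        P3 (w j k) (w j l) (w k l) a b c = true)) :
    (alt4 w).card ≤ 4 * (r * (NNs T B i0).card) := by
  have hN : ((univ : Finset (Fin r)) ×ˢ NNs T B i0).card = r * (NNs T B i0).card := by
    rw [card_product, card_univ, Fintype.card_fin]
  have lne : ∀ i j, i ≠ j → ∀ a c, lam i a ≠ lam j c := by
    intro i j hij a c h
    have m1 : lam i a ∈ B i := by rw [himg i]; exact mem_image_of_mem _ (mem_univ _)
    have m2 : lam i a ∈ B j := by rw [himg j, h]; exact mem_image_of_mem _ (mem_univ _)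
    exact disjoint_left.mp (hdis i j hij) m1 m2
  have hsub : alt4 w ⊆ ((univ.filter (fun t : Fin r × Fin r × Fin r × Fin r =>
        (t.1, t.2.1, t.2.2.1) ∈ NNs T B i0) ∪
      univ.filter (fun t : Fin r × Fin r × Fin r × Fin r =>
        (t.1, t.2.1, t.2.2.2) ∈ NNs T B i0)) ∪
      univ.filter (fun t : Fin r × Fin r × Fin r × Fin r =>
        (t.1, t.2.2.1, t.2.2.2) ∈ NNs T B i0)) ∪
      univ.filter (fun t : Fin r × Fin r × Fin r × Fin r =>
        (t.2.1, t.2.2.1, t.2.2.2) ∈ NNs T B i0) := by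
    rintro ⟨i, j, k, l⟩ h
    rw [alt4, mem_filter] at h
    obtain ⟨-, ⟨n1, n2, n3, n4, n5, n6⟩, e1, e2, e3, e4⟩ := h
    dsimp only at n1 n2 n3 n4 n5 n6 e1 e2 e3 e4
    by_contra hcon
    simp only [mem_union, mem_filter, mem_univ, true_and, NNs, not_or, not_not] at hcon
    obtain ⟨⟨⟨g1, g2⟩, g3⟩, g4⟩ := hcon
    rw [hs] at e4
    obtain ⟨a, b, c, d, f1, f2, f3, f4⟩ := four_alt (w i k) (w j l)
    rcases cov4 hT (lne i j n1 a b) (lne i k n2 a c) (lne i l n3 a d) (lne j k n4 b c)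
      (lne j l n5 b d) (lne k l n6 c d) with g | g | g | g
    · rw [hP i j k g1, e1, e2, f1] at g
      exact absurd g (by decide)
    · rw [hP i j l g2, e1, e4, f2] at g
      exact absurd g (by decide)
    · rw [← rot3, hP i k l g3, e4, e3, f3] at g
      exact absurd g (by decide)
    · rw [← rot3, hP j k l g4, e2, e3, f4] at g
      exact absurd g (by decide)
  have c1 : (univ.filter (fun t : Fin r × Fin r × Fin r × Fin r =>
        (t.1, t.2.1, t.2.2.1) ∈ NNs T B i0)).card ≤ r * (NNs T B i0).card := by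
    rw [← hN]
    refine card_le_card_of_injOn (fun t => (t.2.2.2, (t.1, t.2.1, t.2.2.1))) ?_ ?_
    · rintro ⟨i, j, k, l⟩ h
      simp only [coe_filter, mem_univ, true_and, Set.mem_ofPred_eq] at h
      simpa using h
    · rintro ⟨i, j, k, l⟩ _ ⟨i', j', k', l'⟩ _ h
      simp only [Prod.mk.injEq] at h
      obtain ⟨rfl, rfl, rfl, rfl⟩ := h
      rfl
  have c2 : (univ.filter (fun t : Fin r × Fin r × Fin r × Fin r =>
        (t.1, t.2.1, t.2.2.2) ∈ NNs T B i0)).card ≤ r * (NNs T B i0).card := by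
    rw [← hN]
    refine card_le_card_of_injOn (fun t => (t.2.2.1, (t.1, t.2.1, t.2.2.2))) ?_ ?_
    · rintro ⟨i, j, k, l⟩ h
      simp only [coe_filter, mem_univ, true_and, Set.mem_ofPred_eq] at h
      simpa using h
    · rintro ⟨i, j, k, l⟩ _ ⟨i', j', k', l'⟩ _ h
      simp only [Prod.mk.injEq] at h
      obtain ⟨rfl, rfl, rfl, rfl⟩ := h
      rfl
  have c3 : (univ.filter (fun t : Fin r × Fin r × Fin r × Fin r =>
        (t.1, t.2.2.1, t.2.2.2) ∈ NNs T B i0)).card ≤ r * (NNs T B i0).card := by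
    rw [← hN]
    refine card_le_card_of_injOn (fun t => (t.2.1, (t.1, t.2.2.1, t.2.2.2))) ?_ ?_
    · rintro ⟨i, j, k, l⟩ h
      simp only [coe_filter, mem_univ, true_and, Set.mem_ofPred_eq] at h
      simpa using h
    · rintro ⟨i, j, k, l⟩ _ ⟨i', j', k', l'⟩ _ h
      simp only [Prod.mk.injEq] at h
      obtain ⟨rfl, rfl, rfl, rfl⟩ := h
      rfl
  have c4 : (univ.filter (fun t : Fin r × Fin r × Fin r × Fin r =>
        (t.2.1, t.2.2.1, t.2.2.2) ∈ NNs T B i0)).card ≤ r * (NNs T B i0).card := by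
    rw [← hN]
    refine card_le_card_of_injOn (fun t => (t.1, (t.2.1, t.2.2.1, t.2.2.2))) ?_ ?_
    · rintro ⟨i, j, k, l⟩ h
      simp only [coe_filter, mem_univ, true_and, Set.mem_ofPred_eq] at h
      simpa using h
    · rintro ⟨i, j, k, l⟩ _ ⟨i', j', k', l'⟩ _ h
      simp only [Prod.mk.injEq] at h
      obtain ⟨rfl, rfl, rfl, rfl⟩ := h
      rfl
  have u1 := card_le_card hsub
  have u2 := card_union_le ((univ.filter (fun t : Fin r × Fin r × Fin r × Fin r =>
        (t.1, t.2.1, t.2.2.1) ∈ NNs T B i0) ∪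
      univ.filter (fun t : Fin r × Fin r × Fin r × Fin r =>
        (t.1, t.2.1, t.2.2.2) ∈ NNs T B i0)) ∪
      univ.filter (fun t : Fin r × Fin r × Fin r × Fin r =>
        (t.1, t.2.2.1, t.2.2.2) ∈ NNs T B i0))
      (univ.filter (fun t : Fin r × Fin r × Fin r × Fin r =>
        (t.2.1, t.2.2.1, t.2.2.2) ∈ NNs T B i0))
  have u3 := card_union_le (univ.filter (fun t : Fin r × Fin r × Fin r × Fin r =>
        (t.1, t.2.1, t.2.2.1) ∈ NNs T B i0) ∪
      univ.filter (fun t : Fin r × Fin r × Fin r × Fin r =>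
        (t.1, t.2.1, t.2.2.2) ∈ NNs T B i0))
      (univ.filter (fun t : Fin r × Fin r × Fin r × Fin r =>
        (t.1, t.2.2.1, t.2.2.2) ∈ NNs T B i0))
  have u4 := card_union_le (univ.filter (fun t : Fin r × Fin r × Fin r × Fin r =>
        (t.1, t.2.1, t.2.2.1) ∈ NNs T B i0))
      (univ.filter (fun t : Fin r × Fin r × Fin r × Fin r =>
        (t.1, t.2.1, t.2.2.2) ∈ NNs T B i0))
  omega

/-- **Stability**, in terms of the number of triples of blocks that are not tight. -/
theorem stability (hr : 0 < r) (hT : Cov T) (hB : ∀ i, (B i).card = 3)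
    (hdis : ∀ i j, i ≠ j → Disjoint (B i) (B j)) :
    ∃ (σ : Fin r → Bool) (ψ : Fin 3 × Fin r → V) (p : Fin r → Fin r) (E : ℕ),
      Function.Injective ψ ∧ Function.Injective p ∧ (∀ m, (fib m).image ψ = B (p m)) ∧
      E ^ 4 ≤ 81 * (8 * r ^ 4 * (16 * r * (NTs T B).card) + 2 * r ^ 4) ∧
      ((univ : Finset ((Fin 3 × Fin r) × (Fin 3 × Fin r) × (Fin 3 × Fin r))).filter (fun t =>
        ¬ (({ψ t.1, ψ t.2.1, ψ t.2.2} : Finset V) ∈ T ↔
          ({t.1, t.2.1, t.2.2} : Finset (Fin 3 × Fin r)) ∈ TBK σ))).card ≤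
        27 * (4 * (NTs T B).card + 3 * (r * E)) := by
  obtain ⟨i0, hi0⟩ := exists_base (T := T) (B := B) hr
  have hNN := NNs_le hi0
  obtain ⟨lam, w, linj, himg, hs, hP⟩ := exists_labels hT hB hdis i0
  have lne : ∀ i j, i ≠ j → ∀ a c, lam i a ≠ lam j c := by
    intro i j hij a c h
    have m1 : lam i a ∈ B i := by rw [himg i]; exact mem_image_of_mem _ (mem_univ _)
    have m2 : lam i a ∈ B j := by rw [himg j, h]; exact mem_image_of_mem _ (mem_univ _)
    exact disjoint_left.mp (hdis i j hij) m1 m2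
  have halt := alt4_le hT hdis himg hs hP
  obtain ⟨p, σ, E, hp, hE, hE4⟩ := thr_approx hs
  set ψ : Fin 3 × Fin r → V := fun x => lam (p x.2) (x.1 - sg (σ x.2)) with hψ
  have hinj : Function.Injective ψ := by
    intro x y h
    have h2 : x.2 = y.2 := by
      by_contra hne
      exact lne _ _ (fun e => hne (hp e)) _ _ h
    simp only [hψ, h2] at h
    have h3 := linj _ h
    exact Prod.ext (sub_left_injective h3) h2
  refine ⟨σ, ψ, p, E, hinj, hp, ?_, ?_, ?_⟩
  · intro m
    rw [himg]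
    ext v
    simp only [mem_image, mem_fib, mem_univ, true_and, hψ]
    constructor
    · rintro ⟨x, rfl, rfl⟩
      exact ⟨_, rfl⟩
    · rintro ⟨a, rfl⟩
      exact ⟨(a + sg (σ m), m), rfl, by simp⟩
  · refine hE4.trans ?_
    have h1 : (alt4 w).card ≤ 16 * r * (NTs T B).card := by
      refine halt.trans ?_
      have := Nat.mul_le_mul_left (4 * r) hNN
      nlinarith
    have := Nat.mul_le_mul_left (8 * r ^ 4) h1
    omega
  · -- the exceptional triples of layers
    set Ag : Finset (Fin r × Fin r) := univ.filter (fun q => q.1 ≠ q.2 ∧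
      w (p q.1) (p q.2) ≠ σ (min q.1 q.2)) with hAg
    have key : ∀ x y z : Fin 3 × Fin r,
        Nice T B i0 (p x.2) (p y.2) (p z.2) → (x.2, y.2) ∉ Ag → (x.2, z.2) ∉ Ag →
        (y.2, z.2) ∉ Ag →
        (({ψ x, ψ y, ψ z} : Finset V) ∈ T ↔ fd σ x y z = true) := by
      have hAgs : ∀ a b, (a, b) ∉ Ag → (b, a) ∉ Ag := by
        intro a b h h'
        apply h
        simp only [hAg, mem_filter, mem_univ, true_and] at h' ⊢
        rw [hs, min_comm]
        exact ⟨Ne.symm h'.1, h'.2⟩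
      intro x y z hn h1 h2 h3
      have nxy : x.2 ≠ y.2 := fun e => hn.2.2.2.1.1 (by rw [e])
      have nxz : x.2 ≠ z.2 := fun e => hn.2.2.2.1.2.1 (by rw [e])
      have nyz : y.2 ≠ z.2 := fun e => hn.2.2.2.1.2.2 (by rw [e])
      revert hn h1 h2 h3
      refine sort3 (fun x : Fin 3 × Fin r => x.2)
        (fun x y z => Nice T B i0 (p x.2) (p y.2) (p z.2) → (x.2, y.2) ∉ Ag → (x.2, z.2) ∉ Ag →
          (y.2, z.2) ∉ Ag → (({ψ x, ψ y, ψ z} : Finset V) ∈ T ↔ fd σ x y z = true))
        (fun x y z h hn h1 h2 h3 => by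
          rw [Finset.insert_comm, fd_swap σ y x z]
          exact h hn.swap12 (hAgs _ _ h1) h3 h2)
        (fun x y z h hn h1 h2 h3 => by
          rw [pair_comm, fd_swap' σ x z y]
          exact h hn.swap23 h2 h1 (hAgs _ _ h3)) ?_ x y z (fun e => nxy (by rw [e]))
        (fun e => nxz (by rw [e])) (fun e => nyz (by rw [e]))
      intro x y z _ _ _ a1 a2 hn h1 h2 h3
      have n1 : x.2 ≠ y.2 := fun e => hn.2.2.2.1.1 (by rw [e])
      have n3 : y.2 ≠ z.2 := fun e => hn.2.2.2.1.2.2 (by rw [e])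
      have l1 : x.2 < y.2 := lt_of_le_of_ne a1 n1
      have l2 : y.2 < z.2 := lt_of_le_of_ne a2 n3
      have w1 : w (p x.2) (p y.2) = σ x.2 := by
        by_contra hcon
        apply h1
        simp only [hAg, mem_filter, mem_univ, true_and]
        rw [min_eq_left l1.le]
        exact ⟨n1, hcon⟩
      have w2 : w (p x.2) (p z.2) = σ x.2 := by
        by_contra hcon
        apply h2
        simp only [hAg, mem_filter, mem_univ, true_and]
        rw [min_eq_left (l1.trans l2).le]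
        exact ⟨(l1.trans l2).ne, hcon⟩
      have w3 : w (p y.2) (p z.2) = σ y.2 := by
        by_contra hcon
        apply h3
        simp only [hAg, mem_filter, mem_univ, true_and]
        rw [min_eq_left l2.le]
        exact ⟨n3, hcon⟩
      have m12 : max x.2 y.2 = y.2 := max_eq_right l1.le
      have m23 : max y.2 z.2 = z.2 := max_eq_right l2.le
      have m13 : max x.2 z.2 = z.2 := max_eq_right (l1.trans l2).le
      unfold fd
      rw [m12, m13, m23, L3 (σ x.2) (σ y.2) (σ z.2) x.1 y.1 z.1]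
      have := hP (p x.2) (p y.2) (p z.2) hn (x.1 - sg (σ x.2))
        (y.1 - sg (σ y.2)) (z.1 - sg (σ z.2))
      rw [w1, w2, w3] at this
      exact this
    set Bad : Finset (Fin r × Fin r × Fin r) :=
      ((univ.filter (fun t => (p t.1, p t.2.1, p t.2.2) ∈ NNs T B i0) ∪
        univ.filter (fun t => (t.1, t.2.1) ∈ Ag)) ∪
        univ.filter (fun t => (t.1, t.2.2) ∈ Ag)) ∪
        univ.filter (fun t => (t.2.1, t.2.2) ∈ Ag) with hBad
    have hAr : ((univ : Finset (Fin r)) ×ˢ Ag).card = r * Ag.card := by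
      rw [card_product, card_univ, Fintype.card_fin]
    have c0 : ((univ : Finset (Fin r × Fin r × Fin r)).filter
        (fun t => (p t.1, p t.2.1, p t.2.2) ∈ NNs T B i0)).card ≤ (NNs T B i0).card := by
      refine card_le_card_of_injOn (fun t => (p t.1, p t.2.1, p t.2.2)) ?_ ?_
      · rintro ⟨j, k, l⟩ h
        simp only [coe_filter, mem_univ, true_and, Set.mem_ofPred_eq] at h
        simpa using h
      · rintro ⟨j, k, l⟩ _ ⟨j', k', l'⟩ _ h
        simp only [Prod.mk.injEq, hp.eq_iff] at h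
        obtain ⟨rfl, rfl, rfl⟩ := h
        rfl
    have c1 : ((univ : Finset (Fin r × Fin r × Fin r)).filter (fun t => (t.1, t.2.1) ∈ Ag)).card ≤
        r * Ag.card := by
      rw [← hAr]
      refine card_le_card_of_injOn (fun t => (t.2.2, (t.1, t.2.1))) ?_ ?_
      · rintro ⟨j, k, l⟩ h
        simp only [coe_filter, mem_univ, true_and, Set.mem_ofPred_eq] at h
        simpa using h
      · rintro ⟨j, k, l⟩ _ ⟨j', k', l'⟩ _ h
        simp only [Prod.mk.injEq] at h
        obtain ⟨rfl, rfl, rfl⟩ := h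
        rfl
    have c2 : ((univ : Finset (Fin r × Fin r × Fin r)).filter (fun t => (t.1, t.2.2) ∈ Ag)).card ≤
        r * Ag.card := by
      rw [← hAr]
      refine card_le_card_of_injOn (fun t => (t.2.1, (t.1, t.2.2))) ?_ ?_
      · rintro ⟨j, k, l⟩ h
        simp only [coe_filter, mem_univ, true_and, Set.mem_ofPred_eq] at h
        simpa using h
      · rintro ⟨j, k, l⟩ _ ⟨j', k', l'⟩ _ h
        simp only [Prod.mk.injEq] at h
        obtain ⟨rfl, rfl, rfl⟩ := h
        rfl
    have c3 : ((univ : Finset (Fin r × Fin r × Fin r)).filter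
        (fun t => (t.2.1, t.2.2) ∈ Ag)).card ≤ r * Ag.card := by
      rw [← hAr]
      refine card_le_card_of_injOn (fun t => (t.1, (t.2.1, t.2.2))) ?_ ?_
      · rintro ⟨j, k, l⟩ h
        simp only [coe_filter, mem_univ, true_and, Set.mem_ofPred_eq] at h
        simpa using h
      · rintro ⟨j, k, l⟩ _ ⟨j', k', l'⟩ _ h
        simp only [Prod.mk.injEq] at h
        obtain ⟨rfl, rfl, rfl⟩ := h
        rfl
    have hBc : Bad.card ≤ 4 * (NTs T B).card + 3 * (r * E) := by
      have u2 := card_union_le ((univ.filter (fun t : Fin r × Fin r × Fin r =>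
          (p t.1, p t.2.1, p t.2.2) ∈ NNs T B i0) ∪
        univ.filter (fun t => (t.1, t.2.1) ∈ Ag)) ∪
        univ.filter (fun t => (t.1, t.2.2) ∈ Ag)) (univ.filter (fun t => (t.2.1, t.2.2) ∈ Ag))
      have u3 := card_union_le (univ.filter (fun t : Fin r × Fin r × Fin r =>
          (p t.1, p t.2.1, p t.2.2) ∈ NNs T B i0) ∪
        univ.filter (fun t => (t.1, t.2.1) ∈ Ag)) (univ.filter (fun t => (t.1, t.2.2) ∈ Ag))
      have u4 := card_union_le (univ.filter (fun t : Fin r × Fin r × Fin r =>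
          (p t.1, p t.2.1, p t.2.2) ∈ NNs T B i0)) (univ.filter (fun t => (t.1, t.2.1) ∈ Ag))
      have h5 : r * Ag.card ≤ r * E := Nat.mul_le_mul_left _ hE
      rw [hBad]
      omega
    have hmap : ((univ : Finset ((Fin 3 × Fin r) × (Fin 3 × Fin r) × (Fin 3 × Fin r))).filter
        (fun t => ¬ (({ψ t.1, ψ t.2.1, ψ t.2.2} : Finset V) ∈ T ↔
          ({t.1, t.2.1, t.2.2} : Finset (Fin 3 × Fin r)) ∈ TBK σ))).card ≤
        ((univ : Finset (Fin 3 × Fin 3 × Fin 3)) ×ˢ Bad).card := by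
      refine card_le_card_of_injOn
        (fun t => ((t.1.1, t.2.1.1, t.2.2.1), (t.1.2, t.2.1.2, t.2.2.2))) ?_ ?_
      · rintro ⟨x, y, z⟩ h
        simp only [coe_filter, mem_univ, true_and, Set.mem_ofPred_eq] at h
        rw [mem_coe, mem_product]
        refine ⟨mem_univ _, ?_⟩
        by_contra hcon
        simp only [hBad, NNs, mem_union, mem_filter, mem_univ, true_and, not_or, not_not] at hcon
        obtain ⟨⟨⟨g1, g2⟩, g3⟩, g4⟩ := hcon
        apply h
        have nxy : x ≠ y := fun e => g1.2.2.2.1.1 (by rw [e])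
        have nxz : x ≠ z := fun e => g1.2.2.2.1.2.1 (by rw [e])
        have nyz : y ≠ z := fun e => g1.2.2.2.1.2.2 (by rw [e])
        rw [mem_TBK nxy nxz nyz]
        exact key x y z g1 g2 g3 g4
      · rintro ⟨⟨a, i⟩, ⟨b, j⟩, ⟨c, k⟩⟩ _ ⟨⟨a', i'⟩, ⟨b', j'⟩, ⟨c', k'⟩⟩ _ h
        simp only [Prod.mk.injEq] at h
        obtain ⟨⟨rfl, rfl, rfl⟩, rfl, rfl, rfl⟩ := h
        rfl
    refine hmap.trans ?_
    rw [card_product]
    have h27 : (univ : Finset (Fin 3 × Fin 3 × Fin 3)).card = 27 := by decide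
    rw [h27]
    exact Nat.mul_le_mul_left _ hBc

end main

end Run7.h678.TB
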