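import Pool.Agent.Run7.h678.TB.Thr

set_option autoImplicit false

namespace Run7.h678.TB

open Finset Run7.h678.Sat

section stab
variable {V : Type*} [DecidableEq V] {r : ℕ} {T : Finset (Finset V)}
  {B : Fin r → Finset V}

/-- a tight triple of blocks -/
def Tight (T : Finset (Finset V)) (B : Fin r → Finset V) (i j k : Fin r) : Prop :=
  (i ≠ j ∧ i ≠ k ∧ j ≠ k) ∧ (D T B i j = 0 ∧ D T B j i = 0 ∧ D T B i k = 0 ∧ D T B k i = 0 ∧
    D T B j k = 0 ∧ D T B k j = 0) ∧ bx T (B i) (B j) (B k) = 12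

instance (T : Finset (Finset V)) (B : Fin r → Finset V) (i j k : Fin r) :
    Decidable (Tight T B i j k) := by
  unfold Tight; infer_instance

theorem Tight.swap12 {i j k : Fin r} (h : Tight T B i j k) : Tight T B j i k := by
  obtain ⟨⟨a1, a2, a3⟩, ⟨b1, b2, b3, b4, b5, b6⟩, c⟩ := h
  exact ⟨⟨Ne.symm a1, a3, a2⟩, ⟨b2, b1, b5, b6, b3, b4⟩, by rw [bx_swap]; exact c⟩

theorem Tight.swap23 {i j k : Fin r} (h : Tight T B i j k) : Tight T B i k j := by
  obtain ⟨⟨a1, a2, a3⟩, ⟨b1, b2, b3, b4, b5, b6⟩, c⟩ := h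
  exact ⟨⟨a2, a1, Ne.symm a3⟩, ⟨b3, b4, b1, b2, b6, b5⟩, by rw [bx_swap']; exact c⟩

theorem pointwise (hT : Cov T) (hB : ∀ i, (B i).card = 3)
    (hdis : ∀ i j, i ≠ j → Disjoint (B i) (B j)) (i j k : Fin r) :
    12 + (if Tight T B i j k then 0 else 1) ≤ bx T (B i) (B j) (B k) +
      13 * ((if i = j then 1 else 0) + (if j = k then 1 else 0) + (if i = k then 1 else 0)) +
      13 * (D T B i j + D T B j i + D T B i k + D T B k i + D T B j k + D T B k j) := by
  by_cases h1 : i ≠ j ∧ i ≠ k ∧ j ≠ k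
  · by_cases h2 : D T B i j = 0 ∧ D T B j i = 0 ∧ D T B i k = 0 ∧ D T B k i = 0 ∧
      D T B j k = 0 ∧ D T B k j = 0
    · have h3 := blk_ijk hT hB hdis h1.1 h1.2.1 h1.2.2
      by_cases h4 : Tight T B i j k
      · rw [if_pos h4]
        have := h4.2.2
        omega
      · rw [if_neg h4]
        have h5 : bx T (B i) (B j) (B k) ≠ 12 := fun e => h4 ⟨h1, h2, e⟩
        obtain ⟨b1, b2, b3, b4, b5, b6⟩ := h2
        omega
    · have h4 : ¬ Tight T B i j k := fun h => h2 h.2.1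
      rw [if_neg h4]
      omega
  · have h4 : ¬ Tight T B i j k := fun h => h1 h.1
    rw [if_neg h4]
    have : i = j ∨ i = k ∨ j = k := by
      by_contra h
      push Not at h
      exact h1 h
    rcases this with h | h | h <;> simp only [h, if_true] <;> omega

/-- the triples of blocks that are not tight -/
def NTs (T : Finset (Finset V)) (B : Fin r → Finset V) : Finset (Fin r × Fin r × Fin r) :=
  univ.filter (fun t => ¬ Tight T B t.1 t.2.1 t.2.2)

theorem NTs_card : (NTs T B).card = ∑ i, ∑ j, ∑ k, (if Tight T B i j k then 0 else 1) := by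
  unfold NTs
  rw [card_filter, Fintype.sum_prod_type]
  refine sum_congr rfl fun i _ => ?_
  rw [Fintype.sum_prod_type]
  refine sum_congr rfl fun j _ => sum_congr rfl fun k _ => ?_
  by_cases h : Tight T B i j k <;> simp [h]

theorem NTs_le (hT : Cov T) (hB : ∀ i, (B i).card = 3)
    (hdis : ∀ i j, i ≠ j → Disjoint (B i) (B j)) :
    12 * r ^ 3 + (NTs T B).card ≤ ∑ i, ∑ j, ∑ k, bx T (B i) (B j) (B k) + 39 * r ^ 2 +
      78 * r * ∑ i, ∑ j, D T B i j := by
  have h : ∑ i : Fin r, ∑ j : Fin r, ∑ k : Fin r, (12 + (if Tight T B i j k then 0 else 1)) ≤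
      ∑ i : Fin r, ∑ j : Fin r, ∑ k : Fin r, (bx T (B i) (B j) (B k) +
      13 * ((if i = j then 1 else 0) + (if j = k then 1 else 0) + (if i = k then 1 else 0)) +
      13 * (D T B i j + D T B j i + D T B i k + D T B k i + D T B j k + D T B k j)) :=
    sum_le_sum fun i _ => sum_le_sum fun j _ => sum_le_sum fun k _ => pointwise hT hB hdis i j k
  have e3 : ∑ x : Fin r, ∑ y : Fin r, D T B y x = ∑ i, ∑ j, D T B i j := sum_comm
  have e4 : ∀ i : Fin r, ∑ j : Fin r, ∑ k : Fin r, (if i = j then 1 else 0) = r := by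
    intro i
    simp
  have l1 : ∑ i : Fin r, ∑ j : Fin r, ∑ k : Fin r, (12 + (if Tight T B i j k then 0 else 1)) =
      12 * r ^ 3 + (NTs T B).card := by
    rw [NTs_card]
    simp only [sum_add_distrib, sum_const, card_univ, Fintype.card_fin, smul_eq_mul]
    ring
  have l2 : ∑ i : Fin r, ∑ j : Fin r, ∑ k : Fin r, (bx T (B i) (B j) (B k) +
      13 * ((if i = j then 1 else 0) + (if j = k then 1 else 0) + (if i = k then 1 else 0)) +
      13 * (D T B i j + D T B j i + D T B i k + D T B k i + D T B j k + D T B k j)) =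
      ∑ i, ∑ j, ∑ k, bx T (B i) (B j) (B k) + 39 * r ^ 2 +
      78 * r * ∑ i, ∑ j, D T B i j := by
    simp only [sum_add_distrib, ← mul_sum, sum_ite_eq, mem_univ, if_true, sum_const, card_univ,
      Fintype.card_fin, smul_eq_mul, e3]
    ring
  rw [l1, l2] at h
  exact h

/-- the base block -/
theorem exists_base (hr : 0 < r) : ∃ i0 : Fin r,
    r * ((univ : Finset (Fin r × Fin r)).filter (fun q => ¬ Tight T B i0 q.1 q.2)).card ≤
      (NTs T B).card := by
  have : Nonempty (Fin r) := ⟨⟨0, hr⟩⟩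
  obtain ⟨i0, -, h⟩ := exists_min_image (univ : Finset (Fin r))
    (fun i => ((univ : Finset (Fin r × Fin r)).filter (fun q => ¬ Tight T B i q.1 q.2)).card)
    univ_nonempty
  refine ⟨i0, ?_⟩
  have h1 : (NTs T B).card = ∑ i, ((univ : Finset (Fin r × Fin r)).filter
      (fun q => ¬ Tight T B i q.1 q.2)).card := by
    unfold NTs
    rw [card_filter, Fintype.sum_prod_type]
    refine sum_congr rfl fun i _ => ?_
    rw [card_filter]
  rw [h1]
  calc r * ((univ : Finset (Fin r × Fin r)).filter (fun q => ¬ Tight T B i0 q.1 q.2)).card =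
      ∑ _i : Fin r, ((univ : Finset (Fin r × Fin r)).filter
        (fun q => ¬ Tight T B i0 q.1 q.2)).card := by simp
    _ ≤ _ := sum_le_sum fun i _ => h i (mem_univ _)

/-- the nice triples, with respect to a base block -/
def Nice (T : Finset (Finset V)) (B : Fin r → Finset V) (i0 j k l : Fin r) : Prop :=
  Tight T B i0 j k ∧ Tight T B i0 j l ∧ Tight T B i0 k l ∧ Tight T B j k l

instance (T : Finset (Finset V)) (B : Fin r → Finset V) (i0 j k l : Fin r) :
    Decidable (Nice T B i0 j k l) := by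
  unfold Nice; infer_instance

theorem Nice.swap12 {i0 j k l : Fin r} (h : Nice T B i0 j k l) : Nice T B i0 k j l :=
  ⟨h.1.swap23, h.2.2.1, h.2.1, h.2.2.2.swap12⟩

theorem Nice.swap23 {i0 j k l : Fin r} (h : Nice T B i0 j k l) : Nice T B i0 j l k :=
  ⟨h.2.1, h.1, h.2.2.1.swap23, h.2.2.2.swap23⟩

/-- the triples that are not nice -/
def NNs (T : Finset (Finset V)) (B : Fin r → Finset V) (i0 : Fin r) :
    Finset (Fin r × Fin r × Fin r) :=
  univ.filter (fun t => ¬ Nice T B i0 t.1 t.2.1 t.2.2)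

theorem NNs_le {i0 : Fin r}
    (h0 : r * ((univ : Finset (Fin r × Fin r)).filter (fun q => ¬ Tight T B i0 q.1 q.2)).card ≤
      (NTs T B).card) : (NNs T B i0).card ≤ 4 * (NTs T B).card := by
  set Q : Finset (Fin r × Fin r) := univ.filter (fun q => ¬ Tight T B i0 q.1 q.2) with hQ
  have hQr : ((univ : Finset (Fin r)) ×ˢ Q).card = r * Q.card := by
    rw [card_product, card_univ, Fintype.card_fin]
  have hsub : NNs T B i0 ⊆ ((univ.filter (fun t : Fin r × Fin r × Fin r => (t.1, t.2.1) ∈ Q) ∪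
      univ.filter (fun t : Fin r × Fin r × Fin r => (t.1, t.2.2) ∈ Q)) ∪
      univ.filter (fun t : Fin r × Fin r × Fin r => (t.2.1, t.2.2) ∈ Q)) ∪ NTs T B := by
    rintro ⟨j, k, l⟩ h
    have h' : ¬ Nice T B i0 j k l := by
      rw [NNs, mem_filter] at h
      exact h.2
    unfold Nice at h'
    simp only [NTs, hQ, mem_filter, mem_univ, true_and, mem_union]
    tauto
  have c1 : (univ.filter (fun t : Fin r × Fin r × Fin r => (t.1, t.2.1) ∈ Q)).card ≤
      r * Q.card := by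
    rw [← hQr]
    refine card_le_card_of_injOn (fun t => (t.2.2, (t.1, t.2.1))) ?_ ?_
    · rintro ⟨j, k, l⟩ h
      simp only [coe_filter, mem_univ, true_and, Set.mem_ofPred_eq] at h
      simpa using h
    · rintro ⟨j, k, l⟩ _ ⟨j', k', l'⟩ _ h
      simp only [Prod.mk.injEq] at h
      obtain ⟨rfl, rfl, rfl⟩ := h
      rfl
  have c2 : (univ.filter (fun t : Fin r × Fin r × Fin r => (t.1, t.2.2) ∈ Q)).card ≤
      r * Q.card := by
    rw [← hQr]
    refine card_le_card_of_injOn (fun t => (t.2.1, (t.1, t.2.2))) ?_ ?_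
    · rintro ⟨j, k, l⟩ h
      simp only [coe_filter, mem_univ, true_and, Set.mem_ofPred_eq] at h
      simpa using h
    · rintro ⟨j, k, l⟩ _ ⟨j', k', l'⟩ _ h
      simp only [Prod.mk.injEq] at h
      obtain ⟨rfl, rfl, rfl⟩ := h
      rfl
  have c3 : (univ.filter (fun t : Fin r × Fin r × Fin r => (t.2.1, t.2.2) ∈ Q)).card ≤
      r * Q.card := by
    rw [← hQr]
    refine card_le_card_of_injOn (fun t => (t.1, (t.2.1, t.2.2))) ?_ ?_
    · rintro ⟨j, k, l⟩ h
      simp only [coe_filter, mem_univ, true_and, Set.mem_ofPred_eq] at h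
      simpa using h
    · rintro ⟨j, k, l⟩ _ ⟨j', k', l'⟩ _ h
      simp only [Prod.mk.injEq] at h
      obtain ⟨rfl, rfl, rfl⟩ := h
      rfl
  have u1 := card_le_card hsub
  have u2 := card_union_le ((univ.filter (fun t : Fin r × Fin r × Fin r => (t.1, t.2.1) ∈ Q) ∪
      univ.filter (fun t : Fin r × Fin r × Fin r => (t.1, t.2.2) ∈ Q)) ∪
      univ.filter (fun t : Fin r × Fin r × Fin r => (t.2.1, t.2.2) ∈ Q)) (NTs T B)
  have u3 := card_union_le (univ.filter (fun t : Fin r × Fin r × Fin r => (t.1, t.2.1) ∈ Q) ∪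
      univ.filter (fun t : Fin r × Fin r × Fin r => (t.1, t.2.2) ∈ Q))
      (univ.filter (fun t : Fin r × Fin r × Fin r => (t.2.1, t.2.2) ∈ Q))
  have u4 := card_union_le (univ.filter (fun t : Fin r × Fin r × Fin r => (t.1, t.2.1) ∈ Q))
      (univ.filter (fun t : Fin r × Fin r × Fin r => (t.1, t.2.2) ∈ Q))
  omega

theorem good_of_D {i j : Fin r} (h : D T B i j = 0) {x : V} (hx : x ∈ B j) (hx' : x ∉ B i) :
    Good T (B i) x := by
  unfold D at h
  have h1 := (sum_eq_zero_iff.mp h) x hx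
  by_contra hg
  unfold dd at h1
  rw [if_pos ⟨hx', hg⟩] at h1
  exact absurd h1 (by decide)

theorem exists_labels (hT : Cov T) (hB : ∀ i, (B i).card = 3)
    (hdis : ∀ i j, i ≠ j → Disjoint (B i) (B j)) (i0 : Fin r) :
    ∃ (lam : Fin r → Fin 3 → V) (w : Fin r → Fin r → Bool), (∀ i, Function.Injective (lam i)) ∧
      (∀ i, B i = univ.image (lam i)) ∧ (∀ i j, w i j = w j i) ∧
      ∀ j k l, Nice T B i0 j k l → ∀ a b c, (({lam j a, lam k b, lam l c} : Finset V) ∈ T ↔
        P3 (w j k) (w j l) (w k l) a b c = true) := by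
  choose b hb hBb using fun i => exists_enum (hB i)
  have hmem : ∀ i a, b i a ∈ B i := fun i a => by
    rw [hBb i]; exact mem_image_of_mem _ (mem_univ _)
  have hne : ∀ i j, i ≠ j → ∀ a c, b i a ≠ b j c := fun i j hij a c h =>
    disjoint_left.mp (hdis i j hij) (hmem i a) (h ▸ hmem j c)
  have hap : ∀ i j, ∀ x : Fin 3, ∃ c : Fin 3, (i ≠ j ∧ D T B i j = 0) → ∀ a a', a ≠ a' →
      (({b i a, b i a', b j x} : Finset V) ∈ T ↔ c ≠ a ∧ c ≠ a') := by
    intro i j x
    by_cases hij : i ≠ j ∧ D T B i j = 0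
    · have hx : b j x ∉ B i := fun h => disjoint_left.mp (hdis i j hij.1) h (hmem j x)
      have hg := good_of_D hij.2 (hmem j x) hx
      rw [hBb i] at hx hg
      obtain ⟨c, hc⟩ := apex hT (hb i) hx hg
      exact ⟨c, fun _ => hc⟩
    · exact ⟨0, fun h => absurd h hij⟩
  choose A hA using hap
  have hrel : ∀ j, ∃ (w : Bool) (q : Fin 3 → Fin 3), Function.Injective q ∧
      (j = i0 → ∀ x, q x = x) ∧ ((j ≠ i0 ∧ D T B i0 j = 0 ∧ D T B j i0 = 0) →
        (∀ x, A i0 j (q x) = x + sg w) ∧ (∀ a, A j i0 a = q (a + sg w))) := by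
    intro j
    by_cases hj : j ≠ i0 ∧ D T B i0 j = 0 ∧ D T B j i0 = 0
    · have hno : NoClosed (A i0 j) (A j i0) := noClosed_ctx hT (hb i0) (hb j)
        (hne i0 j (Ne.symm hj.1)) (fun k i i' h => hA i0 j k ⟨Ne.symm hj.1, hj.2.1⟩ i i' h)
        (fun i k k' h => hA j i0 i ⟨hj.1, hj.2.2⟩ k k' h)
      obtain ⟨w, q, hq, h1, h2⟩ := relabel _ _ (noClosed_imp _ _ hno)
      exact ⟨w, q, hq, fun h => absurd h hj.1, fun _ => ⟨h1, h2⟩⟩
    · exact ⟨true, id, Function.injective_id, fun _ _ => rfl, fun h => absurd h hj⟩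
  choose w0 q hq hq0 hqA using hrel
  set lam : Fin r → Fin 3 → V := fun j x => b j (q j x) with hlam
  have linj : ∀ i, Function.Injective (lam i) := fun i => (hb i).comp (hq i)
  have lne : ∀ i j, i ≠ j → ∀ a c, lam i a ≠ lam j c := fun i j hij a c => hne i j hij _ _
  have limg : ∀ i, B i = univ.image (lam i) := by
    intro i
    rw [hBb i]
    ext v
    simp only [mem_image, mem_univ, true_and, hlam]
    constructor
    · rintro ⟨a, rfl⟩
      obtain ⟨a', rfl⟩ := inj_surj (hq i) a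
      exact ⟨a', rfl⟩
    · rintro ⟨a, rfl⟩
      exact ⟨_, rfl⟩
  have lmem : ∀ i a, lam i a ∈ B i := fun i a => hmem i _
  have p0 : ∀ j, (j ≠ i0 ∧ D T B i0 j = 0 ∧ D T B j i0 = 0) → ∀ x a a', a ≠ a' →
      (({lam i0 a, lam i0 a', lam j x} : Finset V) ∈ T ↔
        x + sg (w0 j) ≠ a ∧ x + sg (w0 j) ≠ a') := by
    intro j hj x a a' haa
    have := hA i0 j (q j x) ⟨Ne.symm hj.1, hj.2.1⟩ a a' haa
    rw [(hqA j hj).1] at this
    simp only [hlam, hq0 i0 rfl]
    exact this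
  have p0' : ∀ j, (j ≠ i0 ∧ D T B i0 j = 0 ∧ D T B j i0 = 0) → ∀ a x x', x ≠ x' →
      (({lam j x, lam j x', lam i0 a} : Finset V) ∈ T ↔
        a + sg (w0 j) ≠ x ∧ a + sg (w0 j) ≠ x') := by
    intro j hj a x x' hxx
    have := hA j i0 a ⟨hj.1, hj.2.2⟩ (q j x) (q j x') ((hq j).ne hxx)
    rw [(hqA j hj).2] at this
    simp only [hlam, hq0 i0 rfl]
    rw [this, (hq j).ne_iff, (hq j).ne_iff]
  have hap' : ∀ i j, ∀ x : Fin 3, ∃ c : Fin 3, (i ≠ j ∧ D T B i j = 0) → ∀ a a', a ≠ a' →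
      (({lam i a, lam i a', lam j x} : Finset V) ∈ T ↔ c ≠ a ∧ c ≠ a') := by
    intro i j x
    by_cases hij : i ≠ j ∧ D T B i j = 0
    · have hx : lam j x ∉ B i := fun h => disjoint_left.mp (hdis i j hij.1) h (lmem j x)
      have hg := good_of_D hij.2 (lmem j x) hx
      rw [limg i] at hx hg
      obtain ⟨c, hc⟩ := apex hT (linj i) hx hg
      exact ⟨c, fun _ => hc⟩
    · exact ⟨0, fun h => absurd h hij⟩
  choose C hC using hap'
  have hcnt : ∀ i j k, bx T (B i) (B j) (B k) = 12 → ∑ a : Fin 3, ∑ a' : Fin 3, ∑ a'' : Fin 3,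
      (decide (({lam i a, lam j a', lam k a''} : Finset V) ∈ T)).toNat ≤ 12 := by
    intro i j k h
    rw [limg i, limg j, limg k, bx_enum (linj i) (linj j) (linj k)] at h
    exact h.le
  have hW0 : ∀ j k, ∃ W : Bool, Tight T B i0 j k →
      (∀ x, C j k x = x + sg W) ∧ (∀ x, C k j x = x + sg W) := by
    intro j k
    by_cases h : Tight T B i0 j k
    · obtain ⟨⟨n1, n2, n3⟩, ⟨d1, d2, d3, d4, d5, d6⟩, hbx⟩ := h
      obtain ⟨W, h1, h2, -⟩ := triple_ctx hT (linj i0) (linj j) (linj k)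
        (lne i0 j n1) (lne i0 k n2) (lne j k n3)
        (u := w0 j) (v := w0 k) (c := C j k) (d := C k j)
        (p0 j ⟨Ne.symm n1, d1, d2⟩) (p0' j ⟨Ne.symm n1, d1, d2⟩)
        (p0 k ⟨Ne.symm n2, d3, d4⟩) (p0' k ⟨Ne.symm n2, d3, d4⟩)
        (fun x a a' h => hC j k x ⟨n3, d5⟩ a a' h) (fun x a a' h => hC k j x ⟨Ne.symm n3, d6⟩ a a' h)
        (hcnt i0 j k hbx)
      exact ⟨W, fun _ => ⟨h1, h2⟩⟩
    · exact ⟨true, fun h' => absurd h' h⟩
  choose W hW using hW0
  set w : Fin r → Fin r → Bool := fun i j => if Tight T B i0 i j then W i j else true with hw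
  have wsym : ∀ i j, w i j = w j i := by
    intro i j
    simp only [hw]
    by_cases h : Tight T B i0 i j
    · rw [if_pos h, if_pos h.swap23]
      have h1 := (hW i j h).1 0
      have h2 := (hW j i h.swap23).2 0
      exact add_sg_inj (h1.symm.trans h2)
    · rw [if_neg h, if_neg (fun h' => h h'.swap23)]
  have wpair : ∀ i j, Tight T B i0 i j → ∀ b a a', a ≠ a' →
      (({lam i a, lam i a', lam j b} : Finset V) ∈ T ↔
        b + sg (w i j) ≠ a ∧ b + sg (w i j) ≠ a') := by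
    intro i j h x a a' haa
    have : w i j = W i j := by simp only [hw, if_pos h]
    rw [this, ← (hW i j h).1 x]
    exact hC i j x ⟨h.1.2.2, h.2.1.2.2.2.2.1⟩ a a' haa
  refine ⟨lam, w, linj, limg, wsym, ?_⟩
  rintro i j k ⟨t1, t2, t3, t4⟩
  obtain ⟨n1, n2, n3⟩ := t4.1
  obtain ⟨W', h1, -, h3⟩ := triple_ctx hT (linj i) (linj j) (linj k)
    (lne i j n1) (lne i k n2) (lne j k n3)
    (u := w i j) (v := w i k) (c := fun x => x + sg (w j k)) (d := fun x => x + sg (w j k))
    (wpair i j t1) (by rw [wsym i j]; exact wpair j i t1.swap23)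
    (wpair i k t2) (by rw [wsym i k]; exact wpair k i t2.swap23)
    (wpair j k t3) (by rw [wsym j k]; exact wpair k j t3.swap23)
    (hcnt i j k t4.2.2)
  have : w j k = W' := add_sg_inj (h1 0)
  rw [this]
  exact h3

end stab

end Run7.h678.TB
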