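import Pool.Agent.Run7.h678.TB.Triple

set_option autoImplicit false

namespace Run7.h678.TB

open Finset Run7.h678.Sat

section std
variable {V : Type*} [DecidableEq V] {ι : Type*}

/-- standard labels of the blocks -/
structure Std (T : Finset (Finset V)) (lam : ι → Fin 3 → V) (w : ι → ι → Bool) : Prop where
  inj : ∀ i, Function.Injective (lam i)
  ne : ∀ i j, i ≠ j → ∀ a b, lam i a ≠ lam j b
  sym : ∀ i j, w i j = w j i
  pair : ∀ i j, i ≠ j → ∀ b a a', a ≠ a' → (({lam i a, lam i a', lam j b} : Finset V) ∈ T ↔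
    b + sg (w i j) ≠ a ∧ b + sg (w i j) ≠ a')
  trip : ∀ i j k, i ≠ j → i ≠ k → j ≠ k → ∀ a b c,
    (({lam i a, lam j b, lam k c} : Finset V) ∈ T ↔ P3 (w i j) (w i k) (w j k) a b c = true)

theorem noClosed_ctx {T : Finset (Finset V)} (hT : Cov T) {y z : Fin 3 → V}
    (hy : Function.Injective y) (hz : Function.Injective z)
    (hyz : ∀ i j, y i ≠ z j) {c d : Fin 3 → Fin 3}
    (a23 : ∀ k j j', j ≠ j' → (({y j, y j', z k} : Finset V) ∈ T ↔ c k ≠ j ∧ c k ≠ j'))
    (a32 : ∀ j k k', k ≠ k' → (({z k, z k', y j} : Finset V) ∈ T ↔ d j ≠ k ∧ d j ≠ k')) :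
    NoClosed c d := by
  intro i j k l hij hkl ⟨h1, h2, h3, h4⟩
  have m1 : ({y i, y j, z k} : Finset V) ∉ T := by rw [a23 k i j hij]; exact not_both h1
  have m2 : ({y i, y j, z l} : Finset V) ∉ T := by rw [a23 l i j hij]; exact not_both h2
  have m3 : ({z k, z l, y i} : Finset V) ∉ T := by rw [a32 i k l hkl]; exact not_both h3
  have m4 : ({z k, z l, y j} : Finset V) ∉ T := by rw [a32 j k l hkl]; exact not_both h4
  rcases cov4 hT (hy.ne hij) (hyz i k) (hyz i l) (hyz j k) (hyz j l) (hz.ne hkl) with
    h | h | h | h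
  · exact m1 h
  · exact m2 h
  · exact m3 h
  · exact m4 h

theorem sg_inj : ∀ u v : Bool, sg u = sg v → u = v := by decide

theorem add_sg_inj {x : Fin 3} {u v : Bool} (h : x + sg u = x + sg v) : u = v :=
  sg_inj u v (add_left_cancel h)

theorem bx_enum {T : Finset (Finset V)} {x y z : Fin 3 → V} (hx : Function.Injective x)
    (hy : Function.Injective y) (hz : Function.Injective z) :
    bx T (univ.image x) (univ.image y) (univ.image z) =
      ∑ i : Fin 3, ∑ j : Fin 3, ∑ k : Fin 3,
        (decide (({x i, y j, z k} : Finset V) ∈ T)).toNat := by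
  unfold bx
  rw [sum_enum hx]
  refine sum_congr rfl fun i _ => ?_
  rw [sum_enum hy]
  refine sum_congr rfl fun j _ => ?_
  rw [sum_enum hz]
  refine sum_congr rfl fun k _ => ?_
  unfold g
  by_cases h : ({x i, y j, z k} : Finset V) ∈ T <;> simp [h]

theorem inj_surj {q : Fin 3 → Fin 3} (hq : Function.Injective q) : Function.Surjective q :=
  Finite.surjective_of_injective hq

theorem exists_std {r : ℕ} {T : Finset (Finset V)} (hT : Cov T) {B : Fin r → Finset V}
    (hB : ∀ i, (B i).card = 3) (hdis : ∀ i j, i ≠ j → Disjoint (B i) (B j))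
    (hgood : ∀ i x, x ∉ B i → Good T (B i) x)
    (hcount : ∀ i j k, i ≠ j → i ≠ k → j ≠ k → bx T (B i) (B j) (B k) ≤ 12) :
    ∃ (lam : Fin r → Fin 3 → V) (w : Fin r → Fin r → Bool), Std T lam w ∧
      ∀ i, B i = univ.image (lam i) := by
  rcases Nat.eq_zero_or_pos r with rfl | hr
  · refine ⟨fun i => i.elim0, fun i => i.elim0, ⟨fun i => i.elim0, fun i => i.elim0,
      fun i => i.elim0, fun i => i.elim0, fun i => i.elim0⟩, fun i => i.elim0⟩
  set i0 : Fin r := ⟨0, hr⟩ with hi0
  choose b hb hBb using fun i => exists_enum (hB i)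
  have hmem : ∀ i a, b i a ∈ B i := fun i a => by
    rw [hBb i]; exact mem_image_of_mem _ (mem_univ _)
  have hne : ∀ i j, i ≠ j → ∀ a c, b i a ≠ b j c := fun i j hij a c h =>
    disjoint_left.mp (hdis i j hij) (hmem i a) (h ▸ hmem j c)
  have hap : ∀ i j, ∀ x : Fin 3, ∃ c : Fin 3, i ≠ j → ∀ a a', a ≠ a' →
      (({b i a, b i a', b j x} : Finset V) ∈ T ↔ c ≠ a ∧ c ≠ a') := by
    intro i j x
    by_cases hij : i = j
    · exact ⟨0, fun h => absurd hij h⟩
    · have hx : b j x ∉ B i := fun h => disjoint_left.mp (hdis i j hij) h (hmem j x)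
      have hg := hgood i _ hx
      rw [hBb i] at hx hg
      obtain ⟨c, hc⟩ := apex hT (hb i) hx hg
      exact ⟨c, fun _ => hc⟩
  choose A hA using hap
  have hrel : ∀ j, ∃ (w : Bool) (q : Fin 3 → Fin 3), Function.Injective q ∧
      (j = i0 → ∀ x, q x = x) ∧ (j ≠ i0 → (∀ x, A i0 j (q x) = x + sg w) ∧
        (∀ a, A j i0 a = q (a + sg w))) := by
    intro j
    by_cases hj : j = i0
    · exact ⟨true, id, Function.injective_id, fun _ _ => rfl, fun h => absurd hj h⟩
    · have hno : NoClosed (A i0 j) (A j i0) := noClosed_ctx hT (hb i0) (hb j)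
        (hne i0 j (Ne.symm hj)) (fun k i i' h => hA i0 j k (Ne.symm hj) i i' h)
        (fun i k k' h => hA j i0 i hj k k' h)
      obtain ⟨w, q, hq, h1, h2⟩ := relabel _ _ (noClosed_imp _ _ hno)
      exact ⟨w, q, hq, fun h => absurd h hj, fun _ => ⟨h1, h2⟩⟩
  choose w0 q hq hq0 hqA using hrel
  set lam : Fin r → Fin 3 → V := fun j x => b j (q j x) with hlam
  have linj : ∀ i, Function.Injective (lam i) := fun i => (hb i).comp (hq i)
  have lne : ∀ i j, i ≠ j → ∀ a c, lam i a ≠ lam j c := fun i j hij a c => hne i j hij _ _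
  have limg : ∀ i, B i = univ.image (lam i) := by
    intro i
    rw [hBb i]
    ext v
    simp only [mem_image, mem_univ, true_and, hlam]
    constructor
    · rintro ⟨a, rfl⟩
      obtain ⟨a', rfl⟩ := inj_surj (hq i) a
      exact ⟨a', rfl⟩
    · rintro ⟨a, rfl⟩
      exact ⟨_, rfl⟩
  have lmem : ∀ i a, lam i a ∈ B i := fun i a => hmem i _
  -- pairs with the base block
  have p0 : ∀ j, j ≠ i0 → ∀ x a a', a ≠ a' →
      (({lam i0 a, lam i0 a', lam j x} : Finset V) ∈ T ↔
        x + sg (w0 j) ≠ a ∧ x + sg (w0 j) ≠ a') := by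
    intro j hj x a a' haa
    have := hA i0 j (q j x) (Ne.symm hj) a a' haa
    rw [(hqA j hj).1] at this
    simp only [hlam, hq0 i0 rfl]
    exact this
  have p0' : ∀ j, j ≠ i0 → ∀ a x x', x ≠ x' →
      (({lam j x, lam j x', lam i0 a} : Finset V) ∈ T ↔
        a + sg (w0 j) ≠ x ∧ a + sg (w0 j) ≠ x') := by
    intro j hj a x x' hxx
    have := hA j i0 a hj (q j x) (q j x') ((hq j).ne hxx)
    rw [(hqA j hj).2] at this
    simp only [hlam, hq0 i0 rfl]
    rw [this, (hq j).ne_iff, (hq j).ne_iff]
  -- apex functions in the new labels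
  have hap' : ∀ i j, ∀ x : Fin 3, ∃ c : Fin 3, i ≠ j → ∀ a a', a ≠ a' →
      (({lam i a, lam i a', lam j x} : Finset V) ∈ T ↔ c ≠ a ∧ c ≠ a') := by
    intro i j x
    by_cases hij : i = j
    · exact ⟨0, fun h => absurd hij h⟩
    · have hx : lam j x ∉ B i := fun h => disjoint_left.mp (hdis i j hij) h (lmem j x)
      have hg := hgood i _ hx
      rw [limg i] at hx hg
      obtain ⟨c, hc⟩ := apex hT (linj i) hx hg
      exact ⟨c, fun _ => hc⟩
  choose C hC using hap'
  have hcnt : ∀ i j k, i ≠ j → i ≠ k → j ≠ k → ∑ a : Fin 3, ∑ a' : Fin 3, ∑ a'' : Fin 3,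
      (decide (({lam i a, lam j a', lam k a''} : Finset V) ∈ T)).toNat ≤ 12 := by
    intro i j k hij hik hjk
    have := hcount i j k hij hik hjk
    rw [limg i, limg j, limg k, bx_enum (linj i) (linj j) (linj k)] at this
    exact this
  have hW0 : ∀ j k, ∃ W : Bool, j ≠ i0 → k ≠ i0 → j ≠ k →
      (∀ x, C j k x = x + sg W) ∧ (∀ x, C k j x = x + sg W) := by
    intro j k
    by_cases h : j ≠ i0 ∧ k ≠ i0 ∧ j ≠ k
    · obtain ⟨hj, hk, hjk⟩ := h
      obtain ⟨W, h1, h2, -⟩ := triple_ctx hT (linj i0) (linj j) (linj k)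
        (lne i0 j (Ne.symm hj)) (lne i0 k (Ne.symm hk)) (lne j k hjk)
        (u := w0 j) (v := w0 k) (c := C j k) (d := C k j)
        (p0 j hj) (p0' j hj) (p0 k hk) (p0' k hk)
        (fun x a a' h => hC j k x hjk a a' h) (fun x a a' h => hC k j x (Ne.symm hjk) a a' h)
        (hcnt i0 j k (Ne.symm hj) (Ne.symm hk) hjk)
      exact ⟨W, fun _ _ _ => ⟨h1, h2⟩⟩
    · exact ⟨true, fun h1 h2 h3 => absurd ⟨h1, h2, h3⟩ h⟩
  choose W hW using hW0
  set w : Fin r → Fin r → Bool := fun i j => if i = i0 then w0 j else if j = i0 then w0 i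
    else W i j with hw
  have wsym : ∀ i j, w i j = w j i := by
    intro i j
    simp only [hw]
    by_cases hi : i = i0
    · by_cases hj : j = i0
      · rw [hi, hj]
      · rw [if_pos hi, if_neg hj, if_pos hi]
    · by_cases hj : j = i0
      · rw [if_neg hi, if_pos hj, if_pos hj]
      · rw [if_neg hi, if_neg hj, if_neg hj, if_neg hi]
        by_cases hij : i = j
        · rw [hij]
        · have h1 := (hW i j hi hj hij).1 0
          have h2 := (hW j i hj hi (Ne.symm hij)).2 0
          exact add_sg_inj (h1.symm.trans h2)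
  have wpair : ∀ i j, i ≠ j → ∀ b a a', a ≠ a' →
      (({lam i a, lam i a', lam j b} : Finset V) ∈ T ↔
        b + sg (w i j) ≠ a ∧ b + sg (w i j) ≠ a') := by
    intro i j hij x a a' haa
    by_cases hi : i = i0
    · subst hi
      have : w i0 j = w0 j := by simp only [hw, if_true]
      rw [this]
      exact p0 j (Ne.symm hij) x a a' haa
    · by_cases hj : j = i0
      · subst hj
        have : w i i0 = w0 i := by simp only [hw, if_neg hi, if_true]
        rw [this]
        exact p0' i hi x a a' haa
      · have : w i j = W i j := by simp only [hw, if_neg hi, if_neg hj]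
        rw [this, ← (hW i j hi hj hij).1 x]
        exact hC i j x hij a a' haa
  refine ⟨lam, w, ⟨linj, lne, wsym, wpair, ?_⟩, limg⟩
  intro i j k hij hik hjk
  obtain ⟨W', h1, -, h3⟩ := triple_ctx hT (linj i) (linj j) (linj k)
    (lne i j hij) (lne i k hik) (lne j k hjk)
    (u := w i j) (v := w i k) (c := fun x => x + sg (w j k)) (d := fun x => x + sg (w j k))
    (wpair i j hij) (by rw [wsym i j]; exact wpair j i (Ne.symm hij))
    (wpair i k hik) (by rw [wsym i k]; exact wpair k i (Ne.symm hik))
    (wpair j k hjk) (by rw [wsym j k]; exact wpair k j (Ne.symm hjk))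
    (hcnt i j k hij hik hjk)
  have : w j k = W' := add_sg_inj (h1 0)
  rw [this]
  exact h3

/-- no alternating 4-cycle of signs -/
theorem Std.no_alt {T : Finset (Finset V)} (hT : Cov T) {lam : ι → Fin 3 → V}
    {w : ι → ι → Bool} (h : Std T lam w) (i j k l : ι) (hij : i ≠ j) (hik : i ≠ k) (hil : i ≠ l)
    (hjk : j ≠ k) (hjl : j ≠ l) (hkl : k ≠ l) :
    ¬ (w i j = true ∧ w j k = false ∧ w k l = true ∧ w l i = false) := by
  rintro ⟨e1, e2, e3, e4⟩
  rw [h.sym] at e4
  obtain ⟨a, b, c, d, f1, f2, f3, f4⟩ := four_alt (w i k) (w j l)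
  rcases cov4 hT (h.ne i j hij a b) (h.ne i k hik a c) (h.ne i l hil a d) (h.ne j k hjk b c)
    (h.ne j l hjl b d) (h.ne k l hkl c d) with g | g | g | g
  · rw [h.trip i j k hij hik hjk, e1, e2, f1] at g
    exact absurd g (by decide)
  · rw [h.trip i j l hij hil hjl, e1, e4, f2] at g
    exact absurd g (by decide)
  · rw [← rot3, h.trip i k l hik hil hkl, e4, e3, f3] at g
    exact absurd g (by decide)
  · rw [← rot3, h.trip j k l hjk hjl hkl, e2, e3, f4] at g
    exact absurd g (by decide)

/-- ordering of the indices of a sign function without alternating 4-cycles -/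
theorem thr_list [DecidableEq ι] {w : ι → ι → Bool} (hsym : ∀ i j, w i j = w j i)
    (hno : ∀ i j k l : ι, i ≠ j → i ≠ k → i ≠ l → j ≠ k → j ≠ l → k ≠ l →
      ¬ (w i j = true ∧ w j k = false ∧ w k l = true ∧ w l i = false)) :
    ∀ (n : ℕ) (S : Finset ι), S.card = n → ∃ (l : List ι) (σ : ι → Bool), l.Nodup ∧
      l.toFinset = S ∧ l.Pairwise (fun i j => w i j = σ i) := by
  intro n
  induction n with
  | zero =>
    intro S hS
    rw [card_eq_zero] at hS
    exact ⟨[], fun _ => true, List.nodup_nil, by rw [hS]; rfl, List.Pairwise.nil⟩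
  | succ n ih =>
    intro S hS
    have hne : S.Nonempty := by rw [← card_pos]; omega
    obtain ⟨i, hi, hmax⟩ := exists_max_image S
      (fun i => (S.filter (fun j => j ≠ i ∧ w i j = true)).card) hne
    -- an index which is constant on the rest
    have key : ∃ a ∈ S, ∃ s : Bool, ∀ v ∈ S, v ≠ a → w a v = s := by
      by_cases hdom : ∀ v ∈ S, v ≠ i → w i v = true
      · exact ⟨i, hi, true, hdom⟩
      · push Not at hdom
        obtain ⟨a, ha, hai, hwa⟩ := hdom
        have hwa' : w i a = false := by simpa using hwa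
        refine ⟨a, ha, false, fun v hv hva => ?_⟩
        by_contra hcon
        have hav : w a v = true := by simpa using hcon
        have hvi : v ≠ i := by
          rintro rfl
          rw [hsym, hwa'] at hav
          exact absurd hav (by decide)
        -- compare the neighbourhoods of i and v
        have hle := hmax v hv
        have hex : ∃ m ∈ S, m ≠ i ∧ m ≠ v ∧ w i m = true ∧ w v m = false := by
          by_contra hnone
          push Not at hnone
          have hmono : ((S.filter (fun j => j ≠ i ∧ w i j = true)).erase v) ⊆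
              ((S.filter (fun j => j ≠ v ∧ w v j = true)).erase i) := by
            intro m hm
            simp only [mem_erase, mem_filter] at hm ⊢
            obtain ⟨h1, h2, h3, h4⟩ := hm
            refine ⟨h3, h2, h1, ?_⟩
            have := hnone m h2 h3 h1 h4
            simpa using this
          have hss : a ∈ ((S.filter (fun j => j ≠ v ∧ w v j = true)).erase i) := by
            simp only [mem_erase, mem_filter]
            exact ⟨hai, ha, Ne.symm hva, by rw [hsym]; exact hav⟩
          have hns : a ∉ ((S.filter (fun j => j ≠ i ∧ w i j = true)).erase v) := by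
            simp only [mem_erase, mem_filter]
            rintro ⟨-, -, -, h⟩
            rw [hwa'] at h
            exact absurd h (by decide)
          have hlt := card_lt_card (Finset.ssubset_iff_subset_ne.mpr ⟨hmono, fun e => hns (e ▸ hss)⟩)
          by_cases hiv : w i v = true
          · have e1 : v ∈ S.filter (fun j => j ≠ i ∧ w i j = true) :=
              mem_filter.mpr ⟨hv, hvi, hiv⟩
            have e2 : i ∈ S.filter (fun j => j ≠ v ∧ w v j = true) :=
              mem_filter.mpr ⟨hi, Ne.symm hvi, by rw [hsym]; exact hiv⟩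
            rw [card_erase_of_mem e1, card_erase_of_mem e2] at hlt
            have := card_pos.mpr ⟨v, e1⟩
            have := card_pos.mpr ⟨i, e2⟩
            omega
          · have e1 : v ∉ S.filter (fun j => j ≠ i ∧ w i j = true) := by
              simp [hiv]
            have e2 : i ∉ S.filter (fun j => j ≠ v ∧ w v j = true) := by
              have : ¬ w v i = true := by rw [hsym]; exact hiv
              simp [this]
            rw [erase_eq_of_notMem e1, erase_eq_of_notMem e2] at hlt
            omega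
        obtain ⟨m, -, hmi, hmv, h1, h2⟩ := hex
        have hma : m ≠ a := by
          rintro rfl
          rw [hwa'] at h1
          exact absurd h1 (by decide)
        exact hno i m v a (Ne.symm hmi) (Ne.symm hvi) (Ne.symm hai) hmv hma hva
          ⟨h1, by rw [hsym]; exact h2, by rw [hsym]; exact hav, by rw [hsym]; exact hwa'⟩
    obtain ⟨a, ha, s, hs⟩ := key
    obtain ⟨l, σ, hl1, hl2, hl3⟩ := ih (S.erase a) (by rw [card_erase_of_mem ha]; omega)
    have hal : a ∉ l := by
      intro h
      have : a ∈ l.toFinset := List.mem_toFinset.mpr h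
      rw [hl2] at this
      simp at this
    refine ⟨a :: l, Function.update σ a s, List.nodup_cons.mpr ⟨hal, hl1⟩, ?_, ?_⟩
    · rw [List.toFinset_cons, hl2, insert_erase ha]
    · rw [List.pairwise_cons]
      constructor
      · intro v hv
        have hvS : v ∈ S.erase a := by rw [← hl2]; exact List.mem_toFinset.mpr hv
        rw [mem_erase] at hvS
        rw [Function.update_self]
        exact hs v hvS.2 hvS.1
      · refine hl3.imp_of_mem ?_
        intro x y hx _ hxy
        have : x ≠ a := by rintro rfl; exact hal hx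
        rw [Function.update_of_ne this]
        exact hxy

end std

end Run7.h678.TB
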