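import Pool.Agent.Run7.h678.TB.Unique

set_option autoImplicit false

namespace Run7.h678.TB

open Finset

section thr
variable {r : ℕ} (w : Fin r → Fin r → Bool)

/-- the positive neighbours -/
def nb (i : Fin r) : Finset (Fin r) := univ.filter (fun j => j ≠ i ∧ w i j = true)

/-- the positive degree -/
def dg (i : Fin r) : ℕ := (nb w i).card

/-- positive for `j`, negative for `i` -/
def AA (i j : Fin r) : Finset (Fin r) :=
  univ.filter (fun k => k ≠ i ∧ k ≠ j ∧ w j k = true ∧ w i k = false)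

/-- alternating four-cycles -/
def alt4 : Finset (Fin r × Fin r × Fin r × Fin r) :=
  univ.filter (fun t => (t.1 ≠ t.2.1 ∧ t.1 ≠ t.2.2.1 ∧ t.1 ≠ t.2.2.2 ∧ t.2.1 ≠ t.2.2.1 ∧
    t.2.1 ≠ t.2.2.2 ∧ t.2.2.1 ≠ t.2.2.2) ∧ w t.1 t.2.1 = true ∧ w t.2.1 t.2.2.1 = false ∧
    w t.2.2.1 t.2.2.2 = true ∧ w t.2.2.2 t.1 = false)

variable {w}

theorem dg_le (i : Fin r) : dg w i ≤ r := by
  unfold dg
  calc (nb w i).card ≤ (univ : Finset (Fin r)).card := card_le_univ _
    _ = r := by simp

theorem AA_le (hs : ∀ i j, w i j = w j i) {i j : Fin r} (h : dg w j ≤ dg w i) :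
    (AA w i j).card ≤ (AA w j i).card := by
  have e1 : AA w i j = (nb w j).erase i \ (nb w i).erase j := by
    ext k
    simp only [AA, nb, mem_filter, mem_univ, true_and, mem_sdiff, mem_erase]
    by_cases h1 : w i k = true
    · simp [h1]; tauto
    · have : w i k = false := by simpa using h1
      simp [this]
  have e2 : AA w j i = (nb w i).erase j \ (nb w j).erase i := by
    ext k
    simp only [AA, nb, mem_filter, mem_univ, true_and, mem_sdiff, mem_erase]
    by_cases h1 : w j k = true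
    · simp [h1]; tauto
    · have : w j k = false := by simpa using h1
      simp [this]
  have e3 : ((nb w j).erase i).card ≤ ((nb w i).erase j).card := by
    unfold dg at h
    by_cases hij : i = j
    · subst hij; exact le_rfl
    · by_cases hw : w i j = true
      · have m1 : i ∈ nb w j := by
          simp only [nb, mem_filter, mem_univ, true_and]
          exact ⟨hij, by rw [hs]; exact hw⟩
        have m2 : j ∈ nb w i := by
          simp only [nb, mem_filter, mem_univ, true_and]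
          exact ⟨Ne.symm hij, hw⟩
        rw [card_erase_of_mem m1, card_erase_of_mem m2]
        omega
      · have m1 : i ∉ nb w j := by
          simp only [nb, mem_filter, mem_univ, true_and, not_and]
          intro _; rw [hs]; exact hw
        have m2 : j ∉ nb w i := by
          simp only [nb, mem_filter, mem_univ, true_and, not_and]
          intro _; exact hw
        rw [erase_eq_of_notMem m1, erase_eq_of_notMem m2]
        exact h
  rw [e1, e2]
  have h1 := card_sdiff_add_card ((nb w j).erase i) ((nb w i).erase j)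
  have h2 := card_sdiff_add_card ((nb w i).erase j) ((nb w j).erase i)
  rw [union_comm] at h2
  omega

/-- the number of elements in `AA i j` for `dg j ≤ dg i` -/
def ff (w : Fin r → Fin r → Bool) (p : Fin r × Fin r) : ℕ :=
  if p.1 ≠ p.2 ∧ dg w p.2 ≤ dg w p.1 then (AA w p.1 p.2).card else 0

theorem sum_sq_le (hs : ∀ i j, w i j = w j i) : ∑ p, ff w p ^ 2 ≤ (alt4 w).card := by
  have h1 : ∀ p : Fin r × Fin r, ff w p ^ 2 ≤
      ((univ : Finset (Fin r × Fin r)).filter (fun q => (p.1 ≠ p.2 ∧ dg w p.2 ≤ dg w p.1) ∧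
        q.1 ∈ AA w p.1 p.2 ∧ q.2 ∈ AA w p.2 p.1)).card := by
    intro p
    unfold ff
    split_ifs with h
    · have e : (univ : Finset (Fin r × Fin r)).filter (fun q => (p.1 ≠ p.2 ∧ dg w p.2 ≤ dg w p.1) ∧
          q.1 ∈ AA w p.1 p.2 ∧ q.2 ∈ AA w p.2 p.1) = AA w p.1 p.2 ×ˢ AA w p.2 p.1 := by
        ext q
        simp only [mem_filter, mem_univ, true_and, mem_product]
        tauto
      rw [e, card_product, sq]
      exact Nat.mul_le_mul_left _ (AA_le hs h.2)
    · simp
  refine (sum_le_sum fun p _ => h1 p).trans ?_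
  rw [← card_sigma]
  refine card_le_card_of_injOn (fun t : (Σ _ : Fin r × Fin r, Fin r × Fin r) =>
    (t.1.1, t.2.2, t.1.2, t.2.1)) ?_ ?_
  · rintro ⟨⟨i, j⟩, ⟨k, l⟩⟩ ht
    simp only [coe_sigma, Set.mem_sigma_iff, mem_coe, mem_univ, mem_filter, true_and, AA] at ht
    obtain ⟨⟨hij, -⟩, ⟨a1, a2, a3, a4⟩, b1, b2, b3, b4⟩ := ht
    simp only [alt4, coe_filter, mem_univ, true_and, Set.mem_ofPred_eq]
    refine ⟨⟨Ne.symm b2, hij, Ne.symm a1, b1, ?_, Ne.symm a2⟩, b3, ?_, a3, ?_⟩
    · rintro rfl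
      rw [a3] at b4
      exact absurd b4 (by decide)
    · rw [hs]; exact b4
    · rw [hs]; exact a4
  · rintro ⟨⟨i, j⟩, ⟨k, l⟩⟩ _ ⟨⟨i', j'⟩, ⟨k', l'⟩⟩ _ h
    simp only [Prod.mk.injEq] at h
    obtain ⟨rfl, rfl, rfl, rfl⟩ := h
    rfl

/-- neighbours outside the initial segment -/
def Ms (w : Fin r → Fin r → Bool) (v : Fin r) : Finset (Fin r) :=
  univ.filter (fun l => (l ≠ v ∧ w v l = true) ∧ dg w v ≤ l.val)

/-- not neighbours in the initial segment -/
def Ns (w : Fin r → Fin r → Bool) (v : Fin r) : Finset (Fin r) :=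
  univ.filter (fun l => l.val < dg w v ∧ ¬ (l ≠ v ∧ w v l = true))

theorem Ms_eq_Ns (v : Fin r) : (Ms w v).card = (Ns w v).card := by
  set I : Finset (Fin r) := univ.filter (fun l => l.val < dg w v) with hI
  have hIc : I.card = dg w v := by
    rw [hI]
    have := dg_le (w := w) v
    rw [Fin.card_filter_val_lt]
    omega
  have e1 : Ms w v = nb w v \ I := by
    ext l
    simp only [Ms, nb, hI, mem_filter, mem_univ, true_and, mem_sdiff, not_lt]
  have e2 : Ns w v = I \ nb w v := by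
    ext l
    simp only [Ns, nb, hI, mem_filter, mem_univ, true_and, mem_sdiff]
  rw [e1, e2]
  exact card_sdiff_comm (by rw [hIc]; rfl)

theorem sum_Ms_le (hs : ∀ i j, w i j = w j i) (hanti : ∀ a b : Fin r, a ≤ b → dg w b ≤ dg w a) :
    ∑ v, (Ms w v).card * ((Ms w v).card - 1) ≤ ∑ p, ff w p := by
  have h1 : ∀ v, (Ms w v).card * ((Ms w v).card - 1) ≤
      ((univ : Finset (Fin r × Fin r)).filter (fun p => (p.1 ≠ p.2 ∧ dg w p.2 ≤ dg w p.1) ∧
        v ∈ AA w p.1 p.2)).card := by
    intro v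
    have h2 : (Ms w v).card - 1 ≤ ((Ns w v).erase v).card := by
      rw [Ms_eq_Ns]; exact pred_card_le_card_erase
    refine (Nat.mul_le_mul_left _ h2).trans ?_
    rw [← card_product]
    refine card_le_card_of_injOn (fun t : Fin r × Fin r => (t.2, t.1)) ?_ ?_
    · rintro ⟨l, l'⟩ ht
      simp only [coe_product, Set.mem_prod, mem_coe, Ms, Ns, mem_erase, mem_filter, mem_univ,
        true_and, not_and] at ht
      obtain ⟨⟨⟨c1, c2⟩, c3⟩, c4, c5, c6⟩ := ht
      have hlt : l' < l := Fin.lt_def.mpr (lt_of_lt_of_le c5 c3)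
      have c7 : w v l' = false := by simpa using c6 c4
      simp only [AA, coe_filter, mem_filter, mem_univ, true_and, Set.mem_ofPred_eq]
      refine ⟨⟨hlt.ne, hanti _ _ hlt.le⟩, Ne.symm c4, Ne.symm c1, ?_, ?_⟩
      · rw [hs]; exact c2
      · rw [hs]; exact c7
    · rintro ⟨l, l'⟩ _ ⟨m, m'⟩ _ h
      simp only [Prod.mk.injEq] at h
      obtain ⟨rfl, rfl⟩ := h
      rfl
  refine (sum_le_sum fun v _ => h1 v).trans ?_
  rw [← card_sigma]
  have h3 : ∀ p : Fin r × Fin r, ff w p =
      (univ.filter (fun v => (p.1 ≠ p.2 ∧ dg w p.2 ≤ dg w p.1) ∧ v ∈ AA w p.1 p.2)).card := by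
    intro p
    unfold ff
    split_ifs with h
    · congr 1
      ext v
      simp only [mem_filter, mem_univ, true_and]
      tauto
    · symm
      rw [card_eq_zero, filter_eq_empty_iff]
      intro v _ hv
      exact h hv.1
  rw [sum_congr rfl (fun p _ => h3 p), ← card_sigma]
  refine card_le_card_of_injOn (fun t : (Σ _ : Fin r, Fin r × Fin r) =>
    (⟨t.2, t.1⟩ : Σ _ : Fin r × Fin r, Fin r)) ?_ ?_
  · rintro ⟨v, p⟩ ht
    simp only [coe_sigma, Set.mem_sigma_iff, mem_coe, mem_univ, mem_filter, true_and] at ht ⊢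
    exact ht
  · rintro ⟨v, p⟩ _ ⟨v', p'⟩ _ h
    simp only [Sigma.mk.injEq, heq_eq_eq] at h
    obtain ⟨rfl, rfl⟩ := h
    rfl

/-- the number of edges outside the initial segments -/
def MM (w : Fin r → Fin r → Bool) : ℕ := ∑ v, (Ms w v).card

theorem MM_le (hs : ∀ i j, w i j = w j i) (hanti : ∀ a b : Fin r, a ≤ b → dg w b ≤ dg w a) :
    MM w ^ 4 ≤ 8 * r ^ 4 * (alt4 w).card + 2 * r ^ 4 := by
  set X := ∑ p, ff w p with hX
  have h1 : X ^ 2 ≤ r ^ 2 * (alt4 w).card := by
    have := sq_sum_le_card_mul_sum_sq (s := (univ : Finset (Fin r × Fin r))) (f := ff w)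
    rw [card_univ, Fintype.card_prod, Fintype.card_fin] at this
    calc X ^ 2 ≤ r * r * ∑ p, ff w p ^ 2 := this
      _ ≤ r * r * (alt4 w).card := Nat.mul_le_mul_left _ (sum_sq_le hs)
      _ = r ^ 2 * (alt4 w).card := by ring
  have h2 : ∑ v, (Ms w v).card ^ 2 ≤ 2 * X + r := by
    have h3 : ∀ m : ℕ, m ^ 2 ≤ 2 * (m * (m - 1)) + 1 := by
      intro m
      rcases m with _ | _ | m
      · simp
      · simp
      · simp only [Nat.add_sub_cancel]; nlinarith
    calc ∑ v, (Ms w v).card ^ 2 ≤ ∑ v, (2 * ((Ms w v).card * ((Ms w v).card - 1)) + 1) :=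
          sum_le_sum fun v _ => h3 _
      _ = 2 * ∑ v, ((Ms w v).card * ((Ms w v).card - 1)) + r := by
          rw [sum_add_distrib, ← mul_sum]; simp
      _ ≤ 2 * X + r := by
          have := sum_Ms_le hs hanti
          omega
  have h4 : MM w ^ 2 ≤ r * (2 * X + r) := by
    have := sq_sum_le_card_mul_sum_sq (s := (univ : Finset (Fin r))) (f := fun v => (Ms w v).card)
    rw [card_univ, Fintype.card_fin] at this
    exact this.trans (Nat.mul_le_mul_left _ h2)
  calc MM w ^ 4 = (MM w ^ 2) ^ 2 := by ring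
    _ ≤ (r * (2 * X + r)) ^ 2 := Nat.pow_le_pow_left h4 2
    _ ≤ 8 * r ^ 2 * X ^ 2 + 2 * r ^ 4 := by
        zify
        nlinarith [mul_nonneg (sq_nonneg (r : ℤ)) (sq_nonneg (2 * (X : ℤ) - r))]
    _ ≤ 8 * r ^ 2 * (r ^ 2 * (alt4 w).card) + 2 * r ^ 4 := by
        have := Nat.mul_le_mul_left (8 * r ^ 2) h1
        omega
    _ = 8 * r ^ 4 * (alt4 w).card + 2 * r ^ 4 := by ring

/-- the nested function -/
def HH (w : Fin r → Fin r → Bool) (a b : Fin r) : Bool :=
  decide (a.val < dg w b ∧ b.val < dg w a)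

theorem HH_symm (a b : Fin r) : HH w a b = HH w b a := by
  unfold HH
  exact decide_eq_decide.mpr and_comm

theorem HH_no_alt (hanti : ∀ a b : Fin r, a ≤ b → dg w b ≤ dg w a) (i j k l : Fin r) :
    ¬ (HH w i j = true ∧ HH w j k = false ∧ HH w k l = true ∧ HH w l i = false) := by
  rintro ⟨h1, h2, h3, h4⟩
  simp only [HH, decide_eq_true_eq, decide_eq_false_iff_not, not_and, not_lt] at h1 h2 h3 h4
  rcases le_total i k with h | h
  · have := hanti _ _ h
    have h5 := h4 (by omega)
    have : i.val ≤ k.val := h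
    omega
  · have := hanti _ _ h
    have h6 : k.val ≤ i.val := h
    have h5 := h2 (by omega)
    omega

theorem HH_dist (hs : ∀ i j, w i j = w j i) :
    ((univ : Finset (Fin r × Fin r)).filter (fun p => p.1 ≠ p.2 ∧
      w p.1 p.2 ≠ HH w p.1 p.2)).card ≤ 3 * MM w := by
  have hsub : (univ : Finset (Fin r × Fin r)).filter (fun p => p.1 ≠ p.2 ∧
      w p.1 p.2 ≠ HH w p.1 p.2) ⊆
      (univ.filter (fun p : Fin r × Fin r => p.2 ∈ Ms w p.1) ∪
        univ.filter (fun p : Fin r × Fin r => p.1 ∈ Ms w p.2)) ∪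
        univ.filter (fun p : Fin r × Fin r => p.2 ∈ Ns w p.1) := by
    rintro ⟨a, b⟩ h
    simp only [mem_filter, mem_univ, true_and, mem_union, Ms, Ns] at h ⊢
    obtain ⟨hab, hne⟩ := h
    by_cases hw : w a b = true
    · have hH : ¬ (a.val < dg w b ∧ b.val < dg w a) := by
        intro h
        apply hne
        rw [hw]
        simp [HH, h]
      left
      by_cases h1 : b.val < dg w a
      · right
        exact ⟨⟨hab, by rw [hs]; exact hw⟩, not_lt.mp (fun h2 => hH ⟨h2, h1⟩)⟩
      · left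
        exact ⟨⟨Ne.symm hab, hw⟩, not_lt.mp h1⟩
    · have hw' : w a b = false := by simpa using hw
      have hH : a.val < dg w b ∧ b.val < dg w a := by
        by_contra h
        apply hne
        rw [hw']
        symm
        simp only [HH, decide_eq_false_iff_not]
        exact h
      right
      exact ⟨hH.2, fun h => hw h.2⟩
  have c1 : ((univ : Finset (Fin r × Fin r)).filter (fun p => p.2 ∈ Ms w p.1)).card = MM w := by
    rw [card_filter, Fintype.sum_prod_type]
    unfold MM
    refine sum_congr rfl fun v _ => ?_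
    rw [← card_filter]
    dsimp only
    rw [filter_mem_eq_inter, univ_inter]
  have c2 : ((univ : Finset (Fin r × Fin r)).filter (fun p => p.1 ∈ Ms w p.2)).card = MM w := by
    rw [card_filter, Fintype.sum_prod_type, sum_comm]
    unfold MM
    refine sum_congr rfl fun v _ => ?_
    rw [← card_filter]
    dsimp only
    rw [filter_mem_eq_inter, univ_inter]
  have c3 : ((univ : Finset (Fin r × Fin r)).filter (fun p => p.2 ∈ Ns w p.1)).card = MM w := by
    rw [card_filter, Fintype.sum_prod_type]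
    unfold MM
    refine sum_congr rfl fun v _ => ?_
    rw [← card_filter]
    dsimp only
    rw [filter_mem_eq_inter, univ_inter, Ms_eq_Ns]
  refine (card_le_card hsub).trans ?_
  refine (card_union_le _ _).trans ?_
  have := card_union_le (univ.filter (fun p : Fin r × Fin r => p.2 ∈ Ms w p.1))
    (univ.filter (fun p : Fin r × Fin r => p.1 ∈ Ms w p.2))
  omega

/-- approximation by a function which depends on the first index only, sorted case -/
theorem thr_sorted (hs : ∀ i j, w i j = w j i)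
    (hanti : ∀ a b : Fin r, a ≤ b → dg w b ≤ dg w a) :
    ∃ (p : Fin r → Fin r) (σ : Fin r → Bool), Function.Injective p ∧
      ((univ : Finset (Fin r × Fin r)).filter (fun q => q.1 ≠ q.2 ∧
        w (p q.1) (p q.2) ≠ σ (min q.1 q.2))).card ≤ 3 * MM w := by
  obtain ⟨p, σ, hp, hw⟩ := exists_perm (w := HH w) HH_symm
    (fun i j k l _ _ _ _ _ _ => HH_no_alt hanti i j k l)
  refine ⟨p, σ, hp, le_trans ?_ (HH_dist hs)⟩
  refine card_le_card_of_injOn (fun q : Fin r × Fin r => (p q.1, p q.2)) ?_ ?_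
  · rintro ⟨a, b⟩ h
    simp only [coe_filter, mem_univ, true_and, Set.mem_ofPred_eq] at h ⊢
    refine ⟨fun e => h.1 (hp e), fun e => h.2 ?_⟩
    rw [e]
    rcases lt_or_gt_of_ne h.1 with hab | hab
    · rw [hw a b hab, min_eq_left hab.le]
    · rw [HH_symm, hw b a hab, min_eq_right hab.le]
  · rintro ⟨a, b⟩ _ ⟨a', b'⟩ _ h
    simp only [Prod.mk.injEq] at h
    exact Prod.ext (hp h.1) (hp h.2)

/-- **Removal lemma for alternating four-cycles**. -/
theorem thr_approx (hs : ∀ i j, w i j = w j i) :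
    ∃ (p : Fin r → Fin r) (σ : Fin r → Bool) (E : ℕ), Function.Injective p ∧
      ((univ : Finset (Fin r × Fin r)).filter (fun q => q.1 ≠ q.2 ∧
        w (p q.1) (p q.2) ≠ σ (min q.1 q.2))).card ≤ E ∧
      E ^ 4 ≤ 81 * (8 * r ^ 4 * (alt4 w).card + 2 * r ^ 4) := by
  set q : Equiv.Perm (Fin r) := Tuple.sort (fun i => r - dg w i) with hq
  set w1 : Fin r → Fin r → Bool := fun a b => w (q a) (q b) with hw1
  have hs1 : ∀ i j, w1 i j = w1 j i := fun i j => hs _ _
  have hdg : ∀ a, dg w1 a = dg w (q a) := by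
    intro a
    unfold dg
    refine card_bij (fun j _ => q j) ?_ ?_ ?_
    · intro j hj
      simp only [nb, mem_filter, mem_univ, true_and, hw1] at hj ⊢
      exact ⟨fun e => hj.1 (q.injective e), hj.2⟩
    · intro j _ j' _ h
      exact q.injective h
    · intro j hj
      simp only [nb, mem_filter, mem_univ, true_and] at hj
      refine ⟨q.symm j, ?_, by simp⟩
      simp only [nb, mem_filter, mem_univ, true_and, hw1, Equiv.apply_symm_apply]
      exact ⟨fun e => hj.1 (by rw [← e]; simp), hj.2⟩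
  have hanti : ∀ a b : Fin r, a ≤ b → dg w1 b ≤ dg w1 a := by
    intro a b hab
    rw [hdg, hdg]
    have h1 : r - dg w (q a) ≤ r - dg w (q b) := Tuple.monotone_sort (fun i => r - dg w i) hab
    have h2 := dg_le (w := w) (q a)
    have h3 := dg_le (w := w) (q b)
    omega
  obtain ⟨p, σ, hp, hE⟩ := thr_sorted hs1 hanti
  refine ⟨fun a => q (p a), σ, 3 * MM w1, fun a b h => hp (q.injective h), hE, ?_⟩
  have h4 : (alt4 w1).card ≤ (alt4 w).card := by
    refine card_le_card_of_injOn (fun t : Fin r × Fin r × Fin r × Fin r =>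
      (q t.1, q t.2.1, q t.2.2.1, q t.2.2.2)) ?_ ?_
    · rintro ⟨a, b, c, d⟩ h
      simp only [alt4, coe_filter, mem_univ, true_and, Set.mem_ofPred_eq, hw1] at h ⊢
      obtain ⟨⟨h1, h2, h3, h4, h5, h6⟩, h7⟩ := h
      exact ⟨⟨q.injective.ne h1, q.injective.ne h2, q.injective.ne h3, q.injective.ne h4,
        q.injective.ne h5, q.injective.ne h6⟩, h7⟩
    · rintro ⟨a, b, c, d⟩ _ ⟨a', b', c', d'⟩ _ h
      simp only [Prod.mk.injEq, q.injective.eq_iff] at h
      obtain ⟨rfl, rfl, rfl, rfl⟩ := h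
      rfl
  have h5 := MM_le hs1 hanti
  calc (3 * MM w1) ^ 4 = 81 * MM w1 ^ 4 := by ring
    _ ≤ 81 * (8 * r ^ 4 * (alt4 w1).card + 2 * r ^ 4) := Nat.mul_le_mul_left _ h5
    _ ≤ 81 * (8 * r ^ 4 * (alt4 w).card + 2 * r ^ 4) := by
        have := Nat.mul_le_mul_left (8 * r ^ 4) h4
        omega

end thr

end Run7.h678.TB
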