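import Pool.Agent.Run7.h678.TB.Core
import Pool.Agent.Run7.h678.Sat.Glob

set_option autoImplicit false

namespace Run7.h678.TB

open Finset Run7.h678.Sat

section ctx
variable {V : Type*} [DecidableEq V]

theorem noClosed_sg : ∀ u : Bool, NoClosed (fun x => x + sg u) (fun x => x + sg u) := by decide

theorem tab_eq (f : Fin 3 → Fin 3 → Bool) :
    Tab (f 0 0) (f 0 1) (f 0 2) (f 1 0) (f 1 1) (f 1 2) (f 2 0) (f 2 1) (f 2 2) = f := by
  funext i x
  fin_cases i <;> fin_cases x <;> rfl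

theorem cov_left {T : Finset (Finset V)} (hT : Cov T) {p q r s : V} (hpq : p ≠ q) (hpr : p ≠ r)
    (hps : p ≠ s) (hqr : q ≠ r) (hqs : q ≠ s) (hrs : r ≠ s) (h1 : ({p, q, r} : Finset V) ∉ T)
    (h2 : ({p, q, s} : Finset V) ∉ T) :
    ({p, r, s} : Finset V) ∈ T ∨ ({q, r, s} : Finset V) ∈ T := by
  rcases cov4 hT hpq hpr hps hqr hqs hrs with h | h | h | h
  · exact absurd h h1
  · exact absurd h h2
  · left; rw [rot3]; exact h
  · right; rw [rot3]; exact h

/-- three blocks with the minimal number of mixed members -/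
theorem triple_ctx {T : Finset (Finset V)} (hT : Cov T) {x y z : Fin 3 → V}
    (hx : Function.Injective x) (hy : Function.Injective y) (hz : Function.Injective z)
    (hxy : ∀ i j, x i ≠ y j) (hxz : ∀ i j, x i ≠ z j) (hyz : ∀ i j, y i ≠ z j)
    {u v : Bool} {c d : Fin 3 → Fin 3}
    (a12 : ∀ j i i', i ≠ i' → (({x i, x i', y j} : Finset V) ∈ T ↔
      j + sg u ≠ i ∧ j + sg u ≠ i'))
    (a21 : ∀ i j j', j ≠ j' → (({y j, y j', x i} : Finset V) ∈ T ↔
      i + sg u ≠ j ∧ i + sg u ≠ j'))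
    (a13 : ∀ k i i', i ≠ i' → (({x i, x i', z k} : Finset V) ∈ T ↔
      k + sg v ≠ i ∧ k + sg v ≠ i'))
    (a31 : ∀ i k k', k ≠ k' → (({z k, z k', x i} : Finset V) ∈ T ↔
      i + sg v ≠ k ∧ i + sg v ≠ k'))
    (a23 : ∀ k j j', j ≠ j' → (({y j, y j', z k} : Finset V) ∈ T ↔ c k ≠ j ∧ c k ≠ j'))
    (a32 : ∀ j k k', k ≠ k' → (({z k, z k', y j} : Finset V) ∈ T ↔ d j ≠ k ∧ d j ≠ k'))
    (hcount : ∑ i : Fin 3, ∑ j : Fin 3, ∑ k : Fin 3,
      (decide (({x i, y j, z k} : Finset V) ∈ T)).toNat ≤ 12) :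
    ∃ w : Bool, (∀ k, c k = k + sg w) ∧ (∀ j, d j = j + sg w) ∧
      ∀ i j k, (({x i, y j, z k} : Finset V) ∈ T ↔ P3 u v w i j k = true) := by
  set t : Fin 3 → Fin 3 → Fin 3 → Bool := fun i j k => decide (({x i, y j, z k} : Finset V) ∈ T)
    with ht
  have htm : ∀ i j k, t i j k = true ↔ ({x i, y j, z k} : Finset V) ∈ T := fun i j k => by
    simp [ht]
  have hno : NoClosed c d := by
    intro i j k l hij hkl ⟨h1, h2, h3, h4⟩
    have m1 : ({y i, y j, z k} : Finset V) ∉ T := by rw [a23 k i j hij]; exact not_both h1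
    have m2 : ({y i, y j, z l} : Finset V) ∉ T := by rw [a23 l i j hij]; exact not_both h2
    have m3 : ({z k, z l, y i} : Finset V) ∉ T := by rw [a32 i k l hkl]; exact not_both h3
    have m4 : ({z k, z l, y j} : Finset V) ∉ T := by rw [a32 j k l hkl]; exact not_both h4
    rcases cov4 hT (hy.ne hij) (hyz i k) (hyz i l) (hyz j k) (hyz j l) (hz.ne hkl) with
      h | h | h | h
    · exact m1 h
    · exact m2 h
    · exact m3 h
    · exact m4 h
  have hC1 : ∀ k i i' j : Fin 3, Both (fun x => x + sg u) (k + sg v) i i' j →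
      t i j k = true ∨ t i' j k = true := by
    intro k i i' j ⟨hii, h1, h2⟩
    rw [htm, htm]
    have m1 : ({x i, x i', y j} : Finset V) ∉ T := by rw [a12 j i i' hii]; exact not_both h2
    have m2 : ({x i, x i', z k} : Finset V) ∉ T := by rw [a13 k i i' hii]; exact not_both h1
    exact cov_left hT (hx.ne hii) (hxy i j) (hxz i k) (hxy i' j) (hxz i' k) (hyz j k) m1 m2
  have hC2 : ∀ k j j' i : Fin 3, Both (fun x => x + sg u) (c k) j j' i →
      t i j k = true ∨ t i j' k = true := by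
    intro k j j' i ⟨hjj, h1, h2⟩
    rw [htm, htm]
    have m1 : ({y j, y j', x i} : Finset V) ∉ T := by rw [a21 i j j' hjj]; exact not_both h2
    have m2 : ({y j, y j', z k} : Finset V) ∉ T := by rw [a23 k j j' hjj]; exact not_both h1
    rcases cov_left hT (hy.ne hjj) (hxy i j).symm (hyz j k) (hxy i j').symm (hyz j' k) (hxz i k)
      m1 m2 with h | h
    · left; rw [Finset.insert_comm]; exact h
    · right; rw [Finset.insert_comm]; exact h
  have hfour : ∀ k, 4 ≤ ∑ i : Fin 3, ∑ j : Fin 3, (t i j k).toNat := by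
    intro k
    exact four_le (fun x => x + sg u) (fun x => x + sg u) (noClosed_sg u) (k + sg v) (c k)
      (fun i j => t i j k) (fun i i' j hb => hC1 k i i' j hb) (fun j j' i hb => hC2 k j j' i hb)
  have hle : ∀ k, ∑ i : Fin 3, ∑ j : Fin 3, (t i j k).toNat ≤ 4 := by
    have h0 := hfour 0
    have h1 := hfour 1
    have h2 := hfour 2
    have hs : ∑ i : Fin 3, ∑ j : Fin 3, ∑ k : Fin 3, (t i j k).toNat =
        ∑ i : Fin 3, ∑ j : Fin 3, (t i j 0).toNat + ∑ i : Fin 3, ∑ j : Fin 3, (t i j 1).toNat +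
        ∑ i : Fin 3, ∑ j : Fin 3, (t i j 2).toNat := by
      simp only [Fin.sum_univ_three]; ring
    have hc' : ∑ i : Fin 3, ∑ j : Fin 3, ∑ k : Fin 3, (t i j k).toNat ≤ 12 := hcount
    intro k
    have h3 : k = 0 ∨ k = 1 ∨ k = 2 := by revert k; decide
    rcases h3 with rfl | rfl | rfl <;> omega
  have hsl : ∀ k, SliceR u (k + sg v) (c k) (fun i j => t i j k) := by
    intro k
    have := slice_tab u (k + sg v) (c k) (t 0 0 k) (t 0 1 k) (t 0 2 k) (t 1 0 k) (t 1 1 k)
      (t 1 2 k) (t 2 0 k) (t 2 1 k) (t 2 2 k)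
    rw [tab_eq (fun i j => t i j k)] at this
    refine this ⟨fun i i' j hb => hC1 k i i' j hb, fun j j' i hb => hC2 k j j' i hb⟩ ?_
    have h := hle k
    simp only [Fin.sum_univ_three] at h
    omega
  choose e he using hsl
  have hcc : ∀ i j k, t i j k = cc u v c (e 0) (e 1) (e 2) i j k := by
    intro i j k
    have h3 : k = 0 ∨ k = 1 ∨ k = 2 := by revert k; decide
    unfold cc
    rcases h3 with rfl | rfl | rfl
    · exact he 0 i j
    · exact he 1 i j
    · exact he 2 i j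
  have htrip : TripC v d (cc u v c (e 0) (e 1) (e 2)) := by
    intro k k' i j hkk h1 h2
    rw [← hcc, ← hcc, htm, htm]
    have m1 : ({z k, z k', x i} : Finset V) ∉ T := by rw [a31 i k k' hkk]; exact not_both h1
    have m2 : ({z k, z k', y j} : Finset V) ∉ T := by rw [a32 j k k' hkk]; exact not_both h2
    rcases cov_left hT (hz.ne hkk) (hxz i k).symm (hyz j k).symm (hxz i k').symm
      (hyz j k').symm (hxy i j) m1 m2 with h | h
    · left; rw [← rot3]; exact h
    · right; rw [← rot3]; exact h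
  obtain ⟨w, hw1, hw2, hw3⟩ := triple_tab u v c d (noClosed_imp c d hno) (e 0) (e 1) (e 2) htrip
  refine ⟨w, hw1, hw2, fun i j k => ?_⟩
  rw [← hw3, ← hcc, htm]

end ctx

end Run7.h678.TB
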