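import Pool.Agent.Run7.h678.TB.Config

set_option autoImplicit false

namespace Run7.h678.TB

open Finset Run7.h678.Sat

section uniq
variable {V : Type*} [Fintype V] [DecidableEq V] {r : ℕ} {B : Fin r → Finset V}

/-- the minimal number of ordered members in a box of three blocks -/
def F3 (i j k : Fin r) : ℤ :=
  (12 : ℤ) - 6 * ((if i = j then 1 else 0) + (if j = k then 1 else 0) + (if i = k then 1 else 0)) +
    6 * ((if i = j then 1 else 0) * (if j = k then 1 else 0))

theorem F3_sum (r : ℕ) : ∑ i : Fin r, ∑ j : Fin r, ∑ k : Fin r, F3 i j k =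
    12 * r ^ 3 - 18 * r ^ 2 + 6 * r := by
  have ht := total_three r (fun _ _ => (0 : ℤ))
  simp only [sum_const_zero, mul_zero, sub_zero] at ht
  rw [← ht]
  refine sum_congr rfl fun i _ => sum_congr rfl fun j _ => sum_congr rfl fun k _ => ?_
  unfold F3
  simp

theorem dd_zero {T : Finset (Finset V)} (hgood : ∀ i x, x ∉ B i → Good T (B i) x) (i : Fin r)
    (x : V) : dd T (B i) x = 0 := by
  unfold dd
  rw [if_neg]
  rintro ⟨h1, h2⟩
  exact h2 (hgood i x h1)

theorem D_zero {T : Finset (Finset V)} (hgood : ∀ i x, x ∉ B i → Good T (B i) x) (i j : Fin r) :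
    D T B i j = 0 := sum_eq_zero fun x _ => dd_zero hgood i x

theorem F3_le {T : Finset (Finset V)} (hT : Cov T) (hB : ∀ i, (B i).card = 3)
    (hdis : ∀ i j, i ≠ j → Disjoint (B i) (B j))
    (hgood : ∀ i x, x ∉ B i → Good T (B i) x) (i j k : Fin r) :
    F3 i j k ≤ (bx T (B i) (B j) (B k) : ℤ) := by
  have nb : (0 : ℤ) ≤ bx T (B i) (B j) (B k) := by positivity
  unfold F3
  by_cases hij : i = j
  · by_cases hjk : j = k
    · subst hij; subst hjk
      simp only [if_true]
      linarith
    · subst hij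
      have := blk_iik hT hB hdis hjk
      rw [D_zero hgood] at this
      zify at this
      simp only [if_true, if_neg hjk]
      linarith
  · by_cases hjk : j = k
    · subst hjk
      have := blk_iik hT hB hdis (Ne.symm hij)
      rw [bx_swap', bx_swap, D_zero hgood] at this
      zify at this
      simp only [if_true, if_neg hij]
      linarith
    · by_cases hik : i = k
      · subst hik
        have := blk_iik hT hB hdis hij
        rw [bx_swap', D_zero hgood] at this
        zify at this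
        simp only [if_true, if_neg hij, if_neg hjk]
        linarith
      · have := blk_ijk hT hB hdis hij hik hjk
        simp only [D_zero hgood] at this
        zify at this
        simp only [if_neg hij, if_neg hjk, if_neg hik]
        linarith

theorem cover_univ (hB : ∀ i, (B i).card = 3) (hdis : ∀ i j, i ≠ j → Disjoint (B i) (B j))
    (hV : Fintype.card V = 3 * r) : (univ : Finset V) = univ.biUnion B := by
  symm
  rw [← card_eq_iff_eq_univ, hV, card_biUnion (fun i _ j _ h => hdis i j h)]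
  simp only [hB, sum_const, card_univ, Fintype.card_fin, smul_eq_mul]
  ring

theorem bx_eq {T : Finset (Finset V)} (hT : Cov T) (hB : ∀ i, (B i).card = 3)
    (hdis : ∀ i j, i ≠ j → Disjoint (B i) (B j)) (hV : Fintype.card V = 3 * r)
    (hgood : ∀ i x, x ∉ B i → Good T (B i) x)
    (hc : 6 * (T.card : ℤ) ≤ 12 * r ^ 3 - 18 * r ^ 2 + 6 * r) (i j k : Fin r) :
    F3 i j k = (bx T (B i) (B j) (B k) : ℤ) := by
  have h1 := sum_g_le hT.1
  have hbx : bx T univ univ univ = ∑ i : Fin r, ∑ j : Fin r, ∑ k : Fin r,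
      bx T (B i) (B j) (B k) := by
    conv_lhs => rw [cover_univ hB hdis hV]
    rw [bx_first T hdis]
    refine sum_congr rfl fun i _ => ?_
    rw [bx_second T hdis]
    refine sum_congr rfl fun j _ => ?_
    rw [bx_third T hdis]
  have h2 : bx T univ univ univ = ∑ x : V, ∑ y : V, ∑ z : V, g T x y z := rfl
  rw [← h2, hbx] at h1
  have h3 : ∑ i : Fin r, ∑ j : Fin r, ∑ k : Fin r, (bx T (B i) (B j) (B k) : ℤ) ≤
      ∑ i : Fin r, ∑ j : Fin r, ∑ k : Fin r, F3 i j k := by
    rw [F3_sum]
    zify at h1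
    linarith
  have h4 : ∑ p : Fin r × Fin r × Fin r, F3 p.1 p.2.1 p.2.2 =
      ∑ i : Fin r, ∑ j : Fin r, ∑ k : Fin r, F3 i j k := by
    rw [← univ_product_univ, sum_product]
    refine sum_congr rfl fun x _ => ?_
    rw [← univ_product_univ, sum_product]
  have h5 : ∑ p : Fin r × Fin r × Fin r, (bx T (B p.1) (B p.2.1) (B p.2.2) : ℤ) =
      ∑ i : Fin r, ∑ j : Fin r, ∑ k : Fin r, (bx T (B i) (B j) (B k) : ℤ) := by
    rw [← univ_product_univ, sum_product]
    refine sum_congr rfl fun x _ => ?_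
    rw [← univ_product_univ, sum_product]
  have h6 : ∀ p ∈ (univ : Finset (Fin r × Fin r × Fin r)), F3 p.1 p.2.1 p.2.2 ≤
      (bx T (B p.1) (B p.2.1) (B p.2.2) : ℤ) := fun p _ => F3_le hT hB hdis hgood _ _ _
  have h7 := (sum_eq_sum_iff_of_le h6).mp (le_antisymm (sum_le_sum h6) (by rw [h4, h5]; exact h3))
  exact h7 (i, j, k) (mem_univ _)

/-- the number of members is at least the number of Turan -/
theorem lower {T : Finset (Finset V)} (hT : Cov T) (hB : ∀ i, (B i).card = 3)
    (hdis : ∀ i j, i ≠ j → Disjoint (B i) (B j)) (hV : Fintype.card V = 3 * r)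
    (hgood : ∀ i x, x ∉ B i → Good T (B i) x) :
    12 * (r : ℤ) ^ 3 - 18 * r ^ 2 + 6 * r ≤ 6 * (T.card : ℤ) := by
  have h := main hT hB hdis 0 (by rw [hV]; rfl)
  have e : ∑ i, ∑ x : V, (dd T (B i) x : ℤ) = 0 := by
    refine sum_eq_zero fun i _ => sum_eq_zero fun x _ => ?_
    rw [dd_zero hgood]; rfl
  push_cast at h
  rw [e] at h
  linarith

/-- the ordering of the blocks -/
theorem exists_perm {w : Fin r → Fin r → Bool} (hsym : ∀ i j, w i j = w j i)
    (hno : ∀ i j k l : Fin r, i ≠ j → i ≠ k → i ≠ l → j ≠ k → j ≠ l → k ≠ l →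
      ¬ (w i j = true ∧ w j k = false ∧ w k l = true ∧ w l i = false)) :
    ∃ (p : Fin r → Fin r) (σ : Fin r → Bool), Function.Injective p ∧
      ∀ m n, m < n → w (p m) (p n) = σ m := by
  obtain ⟨l, σ, h1, h2, h3⟩ := thr_list hsym hno r univ (by simp)
  have hlen : l.length = r := by
    rw [← List.toFinset_card_of_nodup h1, h2]; simp
  refine ⟨fun m => l.get (m.cast hlen.symm), fun m => σ (l.get (m.cast hlen.symm)), ?_, ?_⟩
  · intro m n h
    have := (List.nodup_iff_injective_get.mp h1) h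
    simpa using this
  · intro m n h
    rw [List.pairwise_iff_get] at h3
    exact h3 _ _ h

/-- the symmetric step -/
theorem sort3 {α : Type*} (f : α → Fin r) (Q : α → α → α → Prop)
    (s1 : ∀ x y z, Q x y z → Q y x z) (s2 : ∀ x y z, Q x y z → Q x z y)
    (h : ∀ x y z, x ≠ y → x ≠ z → y ≠ z → f x ≤ f y → f y ≤ f z → Q x y z) (x y z : α)
    (hxy : x ≠ y) (hxz : x ≠ z) (hyz : y ≠ z) : Q x y z := by
  rcases le_total (f x) (f y) with a | a <;> rcases le_total (f y) (f z) with b | b <;>
    rcases le_total (f x) (f z) with c | c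
  · exact h _ _ _ hxy hxz hyz a b
  · exact h _ _ _ hxy hxz hyz a b
  · exact s2 _ _ _ (h _ _ _ hxz hxy hyz.symm c b)
  · exact s2 _ _ _ (s1 _ _ _ (h _ _ _ hxz.symm hyz.symm hxy c a))
  · exact s1 _ _ _ (h _ _ _ hxy.symm hyz hxz a c)
  · exact s1 _ _ _ (s2 _ _ _ (h _ _ _ hyz hxy.symm hxz.symm b c))
  · exact s1 _ _ _ (s2 _ _ _ (s1 _ _ _ (h _ _ _ hyz.symm hxz.symm hxy.symm b a)))
  · exact s1 _ _ _ (s2 _ _ _ (s1 _ _ _ (h _ _ _ hyz.symm hxz.symm hxy.symm b a)))

/-- the characterisation -/
theorem unique {T : Finset (Finset V)} (hT : Cov T) (hB : ∀ i, (B i).card = 3)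
    (hdis : ∀ i j, i ≠ j → Disjoint (B i) (B j)) (hV : Fintype.card V = 3 * r)
    (hgood : ∀ i x, x ∉ B i → Good T (B i) x)
    (hc : 6 * (T.card : ℤ) ≤ 12 * r ^ 3 - 18 * r ^ 2 + 6 * r) :
    ∃ (σ : Fin r → Bool) (ψ : Fin 3 × Fin r ≃ V) (p : Fin r → Fin r), Function.Injective p ∧
      (∀ m, (fib m).image ψ = B (p m)) ∧
      ∀ x y z, x ≠ y → x ≠ z → y ≠ z →
        (({ψ x, ψ y, ψ z} : Finset V) ∈ T ↔ ({x, y, z} : Finset (Fin 3 × Fin r)) ∈ TBK σ) := by
  have hbx := bx_eq hT hB hdis hV hgood hc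
  obtain ⟨lam, w, hstd, hlam⟩ := exists_std hT hB hdis hgood (fun i j k hij hik hjk => by
    have := hbx i j k
    unfold F3 at this
    simp only [if_neg hij, if_neg hik, if_neg hjk] at this
    zify
    linarith)
  obtain ⟨p, σ, hp, hw⟩ := exists_perm hstd.sym (fun i j k l h1 h2 h3 h4 h5 h6 =>
    hstd.no_alt hT i j k l h1 h2 h3 h4 h5 h6)
  set ψ : Fin 3 × Fin r → V := fun x => lam (p x.2) (x.1 - sg (σ x.2)) with hψ
  have hinj : Function.Injective ψ := by
    intro x y h
    have h2 : x.2 = y.2 := by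
      by_contra hne
      exact hstd.ne _ _ (fun e => hne (hp e)) _ _ h
    simp only [hψ, h2] at h
    have h3 := hstd.inj _ h
    exact Prod.ext (sub_left_injective h3) h2
  have hbij : Function.Bijective ψ := by
    rw [Fintype.bijective_iff_injective_and_card]
    refine ⟨hinj, ?_⟩
    rw [hV]; simp
  refine ⟨σ, Equiv.ofBijective ψ hbij, p, hp, ?_, ?_⟩
  · intro m
    rw [hlam]
    ext v
    simp only [mem_image, mem_fib, mem_univ, true_and, Equiv.ofBijective_apply, hψ]
    constructor
    · rintro ⟨x, rfl, rfl⟩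
      exact ⟨_, rfl⟩
    · rintro ⟨a, rfl⟩
      exact ⟨(a + sg (σ m), m), rfl, by simp⟩
  · intro x y z hxy hxz hyz
    rw [mem_TBK hxy hxz hyz]
    simp only [Equiv.ofBijective_apply]
    revert x y z
    refine sort3 (fun x : Fin 3 × Fin r => x.2)
      (fun x y z => (({ψ x, ψ y, ψ z} : Finset V) ∈ T ↔ fd σ x y z = true))
      (fun x y z h => by rw [Finset.insert_comm, fd_swap σ y x z]; exact h)
      (fun x y z h => by rw [pair_comm, fd_swap' σ x z y]; exact h) ?_
    intro x y z hxy hxz hyz h1 h2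
    have m12 : max x.2 y.2 = y.2 := max_eq_right h1
    have m23 : max y.2 z.2 = z.2 := max_eq_right h2
    have m13 : max x.2 z.2 = z.2 := max_eq_right (h1.trans h2)
    unfold fd
    rw [m12, m13, m23]
    rcases h1.lt_or_eq with l1 | l1
    · rcases h2.lt_or_eq with l2 | l2
      · -- three layers
        rw [L3 (σ x.2) (σ y.2) (σ z.2) x.1 y.1 z.1]
        have n12 : p x.2 ≠ p y.2 := fun e => l1.ne (hp e)
        have n13 : p x.2 ≠ p z.2 := fun e => (l1.trans l2).ne (hp e)
        have n23 : p y.2 ≠ p z.2 := fun e => l2.ne (hp e)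
        have := hstd.trip (p x.2) (p y.2) (p z.2) n12 n13 n23 (x.1 - sg (σ x.2))
          (y.1 - sg (σ y.2)) (z.1 - sg (σ z.2))
        rw [hw _ _ l1, hw _ _ (l1.trans l2), hw _ _ l2] at this
        exact this
      · -- y and z in one layer
        have hyz' : y.1 ≠ z.1 := fun e => hyz (Prod.ext e l2)
        rw [← l2, L2b (σ x.2) (σ y.2) x.1 y.1 z.1 hyz']
        have n12 : p y.2 ≠ p x.2 := fun e => l1.ne' (hp e)
        have := hstd.pair (p y.2) (p x.2) n12 (x.1 - sg (σ x.2)) (y.1 - sg (σ y.2))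
          (z.1 - sg (σ y.2)) (fun e => hyz' (sub_left_injective e))
        rw [hstd.sym, hw _ _ l1] at this
        rw [← this]
        simp only [hψ, ← l2]
        rw [rot3, rot3]
    · rcases h2.lt_or_eq with l2 | l2
      · -- x and y in one layer
        have hxy' : x.1 ≠ y.1 := fun e => hxy (Prod.ext e l1)
        rw [← l1, L2a (σ x.2) (σ z.2) x.1 y.1 z.1 hxy']
        have n12 : p x.2 ≠ p z.2 := fun e => (l1 ▸ l2).ne (hp e)
        have := hstd.pair (p x.2) (p z.2) n12 (z.1 - sg (σ z.2)) (x.1 - sg (σ x.2))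
          (y.1 - sg (σ x.2)) (fun e => hxy' (sub_left_injective e))
        rw [hw _ _ (l1 ▸ l2)] at this
        rw [← this]
        simp only [hψ, ← l1]
      · -- one layer
        have hxy' : x.1 ≠ y.1 := fun e => hxy (Prod.ext e l1)
        have hyz' : y.1 ≠ z.1 := fun e => hyz (Prod.ext e l2)
        have hxz' : x.1 ≠ z.1 := fun e => hxz (Prod.ext e (l1.trans l2))
        rw [← l2, ← l1, L1 _ _ _ _ hxy' hxz' hyz']
        have h0 := hbx (p x.2) (p x.2) (p x.2)
        unfold F3 at h0
        simp only [if_true] at h0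
        have h0' : bx T (B (p x.2)) (B (p x.2)) (B (p x.2)) = 0 := by
          zify; linarith
        unfold bx at h0'
        have hm : ∀ a, lam (p x.2) a ∈ B (p x.2) := fun a => by
          rw [hlam]; exact mem_image_of_mem _ (mem_univ _)
        have h3 := (sum_eq_zero_iff.mp h0') _ (hm (x.1 - sg (σ x.2)))
        have h4 := (sum_eq_zero_iff.mp h3) _ (hm (y.1 - sg (σ x.2)))
        have h5 := (sum_eq_zero_iff.mp h4) _ (hm (z.1 - sg (σ x.2)))
        have h6 : ({ψ x, ψ y, ψ z} : Finset V) ∉ T := by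
          intro hmem
          simp only [hψ, ← l2, ← l1] at hmem
          unfold g at h5
          rw [if_pos hmem] at h5
          exact absurd h5 (by decide)
        simp [h6]

end uniq

end Run7.h678.TB
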